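import Pool.Agent.V1282.TW.Defs
import Pool.Agent.TH221.Rough.Tubes

set_option autoImplicit false
set_option maxHeartbeats 1000000

/-!
From the strong type inequality on slabs of height one to the tube inequality, for tubes anywhere in
space.  (The proofs follow those of the starting file `Pool.Agent.TH221.Rough.Tubes`.)
-/

open MeasureTheory Set Filter Topology ENNReal NNReal Metric

namespace Pool.Agent.V1282.TW.NT

open Pool.Agent.V1282.TW (Vec Space)
open Pool.Agent.H810R3.Tub (tube dir dir_sub_le tube_eq tube_closed om om_pos vol_closedBall vol_ball)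
open Pool.Agent.TH221.Rough (disj_balls fubini_T exp_facts)

variable {d : ℕ}

/-- The strong type inequality at the heights in `T`. -/
def StrongAt (q Q : ℝ) (T : Set ℝ) (B : Set (Vec d)) (b : Vec d → Vec d) : Prop :=
  ∀ (R : ℝ) (f : Vec d → ℝ≥0∞), 0 < R → Measurable f →
    ∫⁻ t in T, ∫⁻ x : Vec d, (∫⁻ v in {v | v ∈ B ∧ ‖x - (b v + t • v)‖ ≤ R}, f v) ^ q ≤
      ENNReal.ofReal (Q * R ^ (d + 1)) * (∫⁻ v in B, f v ^ (q * d / (q * d - 1))) ^ (q - 1 / d)

/-- The sum of the weighted indicators of the tubes, centres `(c i, s i)`. -/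
noncomputable def Gw {ι : Type} [Fintype ι] (δ : ℝ) (v c : ι → Vec d) (s a : ι → ℝ) (x : Vec d)
    (t : ℝ) : ℝ≥0∞ :=
  ∑ i, (tube δ (dir (v i)) (WithLp.toLp 2 (c i, s i))).indicator (fun _ => ‖a i‖ₑ)
    (WithLp.toLp 2 (x, t))

/-- The sum of the weighted indicators. -/
noncomputable def Gr {ι : Type} [Fintype ι] (δ : ℝ) (v c : ι → Vec d) (s a : ι → ℝ)
    (y : Space d) : ℝ :=
  ∑ i, (tube δ (dir (v i)) (WithLp.toLp 2 (c i, s i))).indicator (fun _ => a i) y

theorem Gr_measurable {ι : Type} [Fintype ι] (δ : ℝ) (v c : ι → Vec d) (s a : ι → ℝ) :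
    Measurable (Gr δ v c s a) := by
  unfold Gr
  apply Finset.measurable_sum
  intro i _
  exact measurable_const.indicator (tube_closed _ _ _).measurableSet

theorem enorm_Gr_le {ι : Type} [Fintype ι] (δ : ℝ) (v c : ι → Vec d) (s a : ι → ℝ) (x : Vec d)
    (t : ℝ) : ‖Gr δ v c s a (WithLp.toLp 2 (x, t))‖ₑ ≤ Gw δ v c s a x t := by
  unfold Gr Gw
  refine (enorm_sum_le _ _).trans (Finset.sum_le_sum fun i _ => ?_)
  by_cases hm : (WithLp.toLp 2 (x, t) : Space d) ∈ tube δ (dir (v i))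
      (WithLp.toLp 2 (c i, s i))
  · rw [indicator_of_mem hm, indicator_of_mem hm]
  · rw [indicator_of_notMem hm, indicator_of_notMem hm]
    simp

/-- A tube is contained in a slanted box. -/
theorem tube_sub {δ : ℝ} (hδ : 0 < δ) (hδ1 : δ < 1) {v c : Vec d} (hv : ‖v‖ ≤ 1) {s : ℝ}
    {z : Vec d} {t : ℝ} (h : (WithLp.toLp 2 (z, t) : Space d) ∈ tube δ (dir v) (WithLp.toLp 2 (c, s))) :
    |t - s| ≤ 3 / 2 ∧ ‖z - (c + (t - s) • v)‖ ≤ 2 * δ := by
  have e : c = (c - s • v) + s • v := by abel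
  have h' : (WithLp.toLp 2 (z, t) : Space d) ∈ Pool.Agent.H810R3.Tub.tube δ
      (Pool.Agent.H810R3.Tub.dir v) (WithLp.toLp 2 ((c - s • v) + s • v, s)) := by rw [← e]; exact h
  rw [tube_eq] at h'
  obtain ⟨ht, hx⟩ := Pool.Agent.H803R2.KakFTO.tube_subset hδ hδ1 (fun _ => c - s • v) hv s h'
  refine ⟨by rw [abs_le]; constructor <;> linarith [ht.1, ht.2], ?_⟩
  have e2 : z - (c + (t - s) • v) = z - ((c - s • v) + t • v) := by
    rw [sub_smul]; abel
  rw [e2]
  exact hx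

/-- Comparison of the sum over the tubes with the continuous family. -/
theorem Gw_le {ι : Type} [Fintype ι] {K : ℝ≥0} {b : Vec d → Vec d}
    {δ : ℝ} (hδ : 0 < δ)
    (hδ1 : δ < 1) (v c : ι → Vec d) (s a : ι → ℝ) (hv : ∀ i, ‖v i‖ ≤ 1)
    {U : Set (Vec d)} (E : ι → Set (Vec d)) (hE : ∀ i, MeasurableSet (E i))
    (hEU : ∀ i, E i ⊆ U)
    (hE1 : ∀ i, ∀ w ∈ E i, ‖w - v i‖ < δ / 2 ∧ ‖c i - (b w + s i • w)‖ ≤ K * δ)
    (hE0 : ∀ i, volume (E i) ≠ 0) (x : Vec d) (t : ℝ) :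
    Gw δ v c s a x t * volume (ball (0 : Vec d) (δ / 2)) ≤
      ∫⁻ w in {w | w ∈ U ∧ ‖x - (b w + t • w)‖ ≤ (4 + K) * δ},
        ∑ i, (E i).indicator (fun _ => ‖a i‖ₑ * (volume (ball (0 : Vec d) (δ / 2)) /
          volume (E i))) w := by
  classical
  have hEt : ∀ i, volume (E i) ≠ ∞ := by
    intro i
    refine ne_top_of_le_ne_top (measure_ball_lt_top (μ := (volume : Measure (Vec d)))
      (x := v i) (r := δ / 2)).ne (measure_mono ?_)
    intro w hw
    rw [mem_ball, dist_eq_norm]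
    exact (hE1 i w hw).1
  set m := volume (ball (0 : Vec d) (δ / 2)) with hm
  set Z : Set (Vec d) := {w | w ∈ U ∧ ‖x - (b w + t • w)‖ ≤ (4 + K) * δ} with hZ
  have hterm : ∀ i, (tube δ (dir (v i)) (WithLp.toLp 2 (c i, s i))).indicator
      (fun _ => ‖a i‖ₑ) (WithLp.toLp 2 (x, t)) * m ≤
      ∫⁻ w in Z, (E i).indicator (fun _ => ‖a i‖ₑ * (m / volume (E i))) w := by
    intro i
    by_cases hmem : (WithLp.toLp 2 (x, t) : Space d) ∈
        tube δ (dir (v i)) (WithLp.toLp 2 (c i, s i))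
    · rw [indicator_of_mem hmem]
      obtain ⟨ht, hx⟩ := tube_sub hδ hδ1 (hv i) hmem
      have hsub : E i ⊆ Z := by
        intro w hw
        refine ⟨hEU i hw, ?_⟩
        obtain ⟨hw1, hw2⟩ := hE1 i w hw
        have e : x - (b w + t • w) = (x - (c i + (t - s i) • v i)) + (c i - (b w + s i • w)) -
            (t - s i) • (w - v i) := by
          rw [smul_sub, sub_smul, sub_smul]; abel
        have hT : ‖(t - s i) • (w - v i)‖ ≤ (3 / 2) * (δ / 2) := by
          rw [norm_smul, Real.norm_eq_abs]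
          exact mul_le_mul ht hw1.le (norm_nonneg _) (by norm_num)
        rw [e]
        calc ‖(x - (c i + (t - s i) • v i)) + (c i - (b w + s i • w)) - (t - s i) • (w - v i)‖
            ≤ ‖(x - (c i + (t - s i) • v i)) + (c i - (b w + s i • w))‖ +
              ‖(t - s i) • (w - v i)‖ := norm_sub_le _ _
          _ ≤ ‖x - (c i + (t - s i) • v i)‖ + ‖c i - (b w + s i • w)‖ +
              ‖(t - s i) • (w - v i)‖ := by
              gcongr
              exact norm_add_le _ _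
          _ ≤ 2 * δ + K * δ + (3 / 2) * (δ / 2) := by linarith
          _ ≤ (4 + K) * δ := by nlinarith
      rw [lintegral_indicator_const (hE i), Measure.restrict_eq_self _ hsub, mul_assoc,
        ENNReal.div_mul_cancel (hE0 i) (hEt i)]
    · rw [indicator_of_notMem hmem, zero_mul]
      exact zero_le
  calc Gw δ v c s a x t * m
      = ∑ i, (tube δ (dir (v i)) (WithLp.toLp 2 (c i, s i))).indicator
          (fun _ => ‖a i‖ₑ) (WithLp.toLp 2 (x, t)) * m := by
        unfold Gw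
        rw [Finset.sum_mul]
    _ ≤ ∑ i, ∫⁻ w in Z, (E i).indicator (fun _ => ‖a i‖ₑ * (m / volume (E i))) w :=
        Finset.sum_le_sum fun i _ => hterm i
    _ = _ := by
        rw [lintegral_finsetSum _ (fun i _ => measurable_const.indicator (hE i))]

/-- The integral form of the tube inequality, at the heights in `T`. -/
theorem tubes_int (hd : 1 ≤ d) {q : ℝ} (hq : ((d : ℝ) + 1) / d < q) {Q : ℝ} (hQ : 0 ≤ Q) {T : Set ℝ}
    {B : Set (Vec d)} {b : Vec d → Vec d} (hB : MeasurableSet B) (hb : Measurable b)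
    (h : StrongAt q Q T B b)
    {K : ℝ≥0} {θ δ : ℝ} (hθ : 0 < θ) (hδ : 0 < δ) (hδ1 : δ < 1) {ι : Type} [Fintype ι]
    (v c : ι → Vec d) (s a : ι → ℝ) (hv : ∀ i, ‖v i‖ ≤ 1)
    (hsep : ∀ i j, i ≠ j → δ ≤ ‖v i - v j‖)
    (hE : ∀ i, ENNReal.ofReal θ * volume (ball (v i) (δ / 2)) ≤
      volume {w | w ∈ B ∧ ‖w - v i‖ < δ / 2 ∧ ‖c i - (b w + s i • w)‖ ≤ K * δ}) :
    ∫⁻ t in T, ∫⁻ x : Vec d, Gw δ v c s a x t ^ q ≤
      ENNReal.ofReal (Q * ((4 + K) * δ) ^ (d + 1) *
        (((δ / 2) ^ d * om d) ^ (-(1 / (d : ℝ))) * θ ^ (-(1 / (d : ℝ))))) *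
          ENNReal.ofReal (∑ i, |a i| ^ (q * d / (q * d - 1))) ^ (q - 1 / d) := by
  classical
  obtain ⟨hd0, hq1, hqd, hr, hs0, hq2⟩ := exp_facts hd hq
  have hom := om_pos (d := d)
  set E : ι → Set (Vec d) := fun i =>
    {w | w ∈ B ∧ (‖w - v i‖ < δ / 2 ∧ ‖c i - (b w + s i • w)‖ ≤ K * δ)} with hEdef
  have hEm : ∀ i, MeasurableSet (E i) := by
    intro i
    have h1 : MeasurableSet {w : Vec d | ‖w - v i‖ < δ / 2} :=
      measurableSet_lt (by fun_prop) measurable_const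
    have h2 : MeasurableSet {w : Vec d | ‖c i - (b w + s i • w)‖ ≤ K * δ} :=
      measurableSet_le (measurable_const.sub (hb.add (measurable_id.const_smul (s i)))).norm
        measurable_const
    exact hB.inter (h1.inter h2)
  set g0 : ℝ := (δ / 2) ^ d * om d with hg0
  have hg00 : 0 < g0 := by positivity
  have hc : volume (ball (0 : Vec d) (δ / 2)) = ENNReal.ofReal g0 := vol_ball hd (by linarith)
  have hEθ : ∀ i, ENNReal.ofReal (θ * g0) ≤ volume (E i) := by
    intro i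
    have h1 := hE i
    rw [Measure.addHaar_ball_center volume (v i) (δ / 2), hc, ← ENNReal.ofReal_mul hθ.le] at h1
    exact h1
  have hE0 : ∀ i, volume (E i) ≠ 0 := by
    intro i h0
    have h1 := hEθ i
    rw [h0, nonpos_iff_eq_zero, ENNReal.ofReal_eq_zero] at h1
    have : 0 < θ * g0 := by positivity
    linarith
  have hEt : ∀ i, volume (E i) ≠ ∞ := by
    intro i
    refine ne_top_of_le_ne_top (measure_ball_lt_top (μ := (volume : Measure (Vec d)))
      (x := v i) (r := δ / 2)).ne (measure_mono ?_)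
    intro w hw
    rw [mem_ball, dist_eq_norm]
    exact hw.2.1
  set A : ι → ℝ≥0∞ := fun i => ‖a i‖ₑ * (volume (ball (0 : Vec d) (δ / 2)) / volume (E i)) with hA
  set f : Vec d → ℝ≥0∞ := fun w => ∑ i, (E i).indicator (fun _ => A i) w with hf
  have hfm : Measurable f :=
    Finset.measurable_sum _ fun i _ => measurable_const.indicator (hEm i)
  set e : ℝ := q * d / (q * d - 1) with he
  set R : ℝ := (4 + K) * δ with hR
  have hK0 : (0 : ℝ) ≤ K := K.2
  have hR0 : 0 < R := by positivity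
  have hstrong := h R f hR0 hfm
  rw [← he] at hstrong
  -- the left side
  have hL : (∫⁻ t in T, ∫⁻ x : Vec d, Gw δ v c s a x t ^ q) * ENNReal.ofReal (g0 ^ q) ≤
      ∫⁻ t in T, ∫⁻ x : Vec d, (∫⁻ w in {w | w ∈ B ∧ ‖x - (b w + t • w)‖ ≤ R}, f w) ^ q := by
    rw [← lintegral_mul_const' _ _ ENNReal.ofReal_ne_top]
    refine lintegral_mono fun t => ?_
    simp only
    rw [← lintegral_mul_const' _ _ ENNReal.ofReal_ne_top]
    refine lintegral_mono fun x => ?_
    simp only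
    have h1 := Gw_le (K := K) hδ hδ1 v c s a hv (U := B) E hEm
      (fun i w hw => hw.1) (fun i w hw => hw.2) hE0 x t
    have h2 : ENNReal.ofReal (g0 ^ q) = (ENNReal.ofReal g0) ^ q :=
      (ENNReal.ofReal_rpow_of_pos hg00).symm
    rw [h2, ← ENNReal.mul_rpow_of_nonneg _ _ (by linarith), ← hc]
    exact ENNReal.rpow_le_rpow h1 (by linarith)
  -- the right side
  have hdisj : ∀ w i j, w ∈ E i → w ∈ E j → i = j := by
    intro w i j hi hj
    exact disj_balls hsep hi.2.1 hj.2.1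
  have hfe : ∀ w, f w ^ e = ∑ i, (E i).indicator (fun _ => A i ^ e) w := by
    intro w
    by_cases hw : ∃ i, w ∈ E i
    · obtain ⟨i, hi⟩ := hw
      have hne : ∀ j, j ≠ i → w ∉ E j := fun j hj hjE => hj (hdisj w j i hjE hi)
      have e1 : f w = A i := by
        show ∑ i, (E i).indicator (fun _ => A i) w = A i
        rw [Finset.sum_eq_single i]
        · rw [indicator_of_mem hi]
        · intro j _ hj
          rw [indicator_of_notMem (hne j hj)]
        · intro h; exact absurd (Finset.mem_univ i) h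
      rw [e1, Finset.sum_eq_single i]
      · rw [indicator_of_mem hi]
      · intro j _ hj
        rw [indicator_of_notMem (hne j hj)]
      · intro h; exact absurd (Finset.mem_univ i) h
    · have e1 : f w = 0 := by
        show ∑ i, (E i).indicator (fun _ => A i) w = 0
        refine Finset.sum_eq_zero fun i _ => ?_
        rw [indicator_of_notMem (fun h => hw ⟨i, h⟩)]
      rw [e1, ENNReal.zero_rpow_of_pos hs0]
      symm
      refine Finset.sum_eq_zero fun i _ => ?_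
      rw [indicator_of_notMem (fun h => hw ⟨i, h⟩)]
  have hterm : ∀ i, A i ^ e * volume (E i) ≤ ENNReal.ofReal (g0 * θ ^ (1 - e) * |a i| ^ e) := by
    intro i
    set m : ℝ := (volume (E i)).toReal with hm
    have hm0 : 0 < m := ENNReal.toReal_pos (hE0 i) (hEt i)
    have hvm : volume (E i) = ENNReal.ofReal m := (ENNReal.ofReal_toReal (hEt i)).symm
    have hmθ : θ * g0 ≤ m := by
      have h1 := hEθ i
      rw [hvm] at h1
      exact (ENNReal.ofReal_le_ofReal_iff hm0.le).1 h1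
    have hAi : A i = ENNReal.ofReal (|a i| * (g0 / m)) := by
      simp only [hA]
      rw [hc, hvm, ← ENNReal.ofReal_div_of_pos hm0, Real.enorm_eq_ofReal_abs,
        ← ENNReal.ofReal_mul (abs_nonneg _)]
    rw [hAi, hvm, ENNReal.ofReal_rpow_of_nonneg (by positivity) hs0.le,
      ← ENNReal.ofReal_mul (by positivity)]
    apply ENNReal.ofReal_le_ofReal
    have he1 : 1 - e ≤ 0 := by
      rw [he, sub_nonpos, le_div_iff₀ (by linarith)]
      linarith
    have h1 : m ^ (1 - e) ≤ (θ * g0) ^ (1 - e) :=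
      Real.rpow_le_rpow_of_nonpos (by positivity) hmθ he1
    have h2 : g0 ^ e * g0 ^ (1 - e) = g0 := by
      rw [← Real.rpow_add hg00]
      have : e + (1 - e) = 1 := by ring
      rw [this, Real.rpow_one]
    have h3 : m ^ (1 - e) = m / m ^ e := by
      rw [Real.rpow_sub hm0, Real.rpow_one]
    calc (|a i| * (g0 / m)) ^ e * m = |a i| ^ e * (g0 ^ e * m ^ (1 - e)) := by
          rw [Real.mul_rpow (abs_nonneg _) (by positivity), Real.div_rpow hg00.le hm0.le, h3]
          ring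
      _ ≤ |a i| ^ e * (g0 ^ e * (θ * g0) ^ (1 - e)) := by gcongr
      _ = |a i| ^ e * ((g0 ^ e * g0 ^ (1 - e)) * θ ^ (1 - e)) := by
          rw [Real.mul_rpow hθ.le hg00.le]
          ring
      _ = g0 * θ ^ (1 - e) * |a i| ^ e := by
          rw [h2]
          ring
  set Sa : ℝ := ∑ i, |a i| ^ e with hSa
  have hSa0 : 0 ≤ Sa := Finset.sum_nonneg fun i _ => by positivity
  have hRint : ∫⁻ w in B, f w ^ e ≤ ENNReal.ofReal (g0 * θ ^ (1 - e) * Sa) := by
    simp only [hfe]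
    rw [lintegral_finsetSum _ (fun i _ => measurable_const.indicator (hEm i))]
    calc ∑ i, ∫⁻ w in B, (E i).indicator (fun _ => A i ^ e) w
        ≤ ∑ i, A i ^ e * volume (E i) := by
          refine Finset.sum_le_sum fun i _ => ?_
          rw [lintegral_indicator_const (hEm i)]
          exact mul_le_mul_right (Measure.restrict_apply_le _ _) _
      _ ≤ ∑ i, ENNReal.ofReal (g0 * θ ^ (1 - e) * |a i| ^ e) := Finset.sum_le_sum fun i _ => hterm i
      _ = ENNReal.ofReal (g0 * θ ^ (1 - e) * Sa) := by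
          rw [← ENNReal.ofReal_sum_of_nonneg (fun i _ => by positivity), hSa, Finset.mul_sum]
  have hfin := (hL.trans hstrong).trans
    (mul_le_mul_right (ENNReal.rpow_le_rpow hRint hq2.le) _)
  have hG0 : ENNReal.ofReal (g0 ^ q) ≠ 0 := by
    rw [ne_eq, ENNReal.ofReal_eq_zero, not_le]
    exact Real.rpow_pos_of_pos hg00 _
  rw [ENNReal.ofReal_rpow_of_nonneg (by positivity) hq2.le,
    ← ENNReal.ofReal_mul (by positivity)] at hfin
  have hval : Q * R ^ (d + 1) * (g0 * θ ^ (1 - e) * Sa) ^ (q - 1 / d) =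
      (Q * R ^ (d + 1) *
        (g0 ^ (-(1 / (d : ℝ))) * θ ^ (-(1 / (d : ℝ)))) * Sa ^ (q - 1 / d)) * g0 ^ q := by
    rw [Real.mul_rpow (by positivity) hSa0, Real.mul_rpow hg00.le (by positivity),
      ← Real.rpow_mul hθ.le]
    have f1 : (1 - e) * (q - 1 / d) = -(1 / (d : ℝ)) := by
      rw [he]
      have : q * d - 1 ≠ 0 := by linarith
      field_simp
      ring
    have f2 : g0 ^ (q - 1 / (d : ℝ)) = g0 ^ (-(1 / (d : ℝ))) * g0 ^ q := by
      rw [← Real.rpow_add hg00]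
      congr 1
      ring
    rw [f1, f2]
    ring
  rw [hval, ENNReal.ofReal_mul (by positivity)] at hfin
  have hfin2 := (ENNReal.mul_le_mul_iff_left hG0 ENNReal.ofReal_ne_top).1 hfin
  refine hfin2.trans (le_of_eq ?_)
  rw [ENNReal.ofReal_mul (by positivity), ENNReal.ofReal_rpow_of_nonneg hSa0 hq2.le]

/-- `∑ x^p ≤ (∑ x)^p` for `p ≥ 1`. -/
theorem tsum_rpow_le {α : Type} (x : α → ℝ≥0∞) {p : ℝ} (hp : 1 ≤ p) :
    ∑' i, x i ^ p ≤ (∑' i, x i) ^ p := by
  have h : ∀ i, x i ^ p ≤ x i * (∑' i, x i) ^ (p - 1) := by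
    intro i
    have e : x i ^ p = x i * x i ^ (p - 1) := by
      have : p = 1 + (p - 1) := by ring
      conv_lhs => rw [this, ENNReal.rpow_add_of_nonneg _ _ zero_le_one (by linarith), ENNReal.rpow_one]
    rw [e]
    gcongr
    exact ENNReal.le_tsum i
  calc ∑' i, x i ^ p ≤ ∑' i, x i * (∑' i, x i) ^ (p - 1) := ENNReal.tsum_le_tsum h
    _ = (∑' i, x i) * (∑' i, x i) ^ (p - 1) := ENNReal.tsum_mul_right
    _ = (∑' i, x i) ^ p := by
        have : p = 1 + (p - 1) := by ring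
        conv_rhs => rw [this, ENNReal.rpow_add_of_nonneg _ _ zero_le_one (by linarith),
          ENNReal.rpow_one]

/-- The tubes that can meet the heights in `[m, m + 1)`. -/
abbrev Near {ι : Type} (s : ι → ℝ) (m : ℤ) : Type := {i : ι // |⌊s i⌋ - m| ≤ 2}

noncomputable instance {ι : Type} [Fintype ι] (s : ι → ℝ) (m : ℤ) : Fintype (Near s m) :=
  Fintype.ofFinite _

theorem sum_near {ι : Type} [Fintype ι] {M : Type} [AddCommMonoid M] (s : ι → ℝ) (m : ℤ)
    (F : ι → M) (h0 : ∀ i, ¬ |⌊s i⌋ - m| ≤ 2 → F i = 0) :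
    ∑ i : Near s m, F i = ∑ i, F i := by
  classical
  rw [← Finset.sum_subtype (Finset.univ.filter (fun i => |⌊s i⌋ - m| ≤ 2)) (by simp) F]
  exact Finset.sum_subset (Finset.filter_subset _ _) (fun i _ hi => h0 i (fun h => hi (by simp [h])))

theorem Gw_near {ι : Type} [Fintype ι] {δ : ℝ} (hδ : 0 < δ) (hδ1 : δ < 1) (v c : ι → Vec d)
    (s a : ι → ℝ) (hv : ∀ i, ‖v i‖ ≤ 1) (m : ℤ) {t : ℝ} (ht : t ∈ Ico (m : ℝ) (m + 1)) (x : Vec d) :
    Gw δ v c s a x t = Gw δ (fun i : Near s m => v i) (fun i => c i) (fun i => s i)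
      (fun i => a i) x t := by
  classical
  unfold Gw
  have h0 : ∀ i, ¬ |⌊s i⌋ - m| ≤ 2 →
      (tube δ (dir (v i)) (WithLp.toLp 2 (c i, s i))).indicator (fun _ => ‖a i‖ₑ)
        (WithLp.toLp 2 (x, t) : Space d) = 0 := by
    intro i hi
    apply indicator_of_notMem
    intro hmem
    obtain ⟨h1, -⟩ := tube_sub hδ hδ1 (hv i) hmem
    apply hi
    rw [abs_le] at h1 ⊢
    have h2 : ((m - 2 : ℤ) : ℝ) ≤ s i := by push_cast; linarith [ht.1, h1.2]
    have h3 : s i < ((m + 3 : ℤ) : ℝ) := by push_cast; linarith [ht.2, h1.1]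
    have h4 := Int.le_floor.2 h2
    have h5 := Int.floor_lt.2 h3
    constructor <;> omega
  exact (sum_near s m (fun i => (tube δ (dir (v i)) (WithLp.toLp 2 (c i, s i))).indicator
    (fun _ => ‖a i‖ₑ) (WithLp.toLp 2 (x, t) : Space d)) h0).symm

/-- The sum of the weights of the tubes near the heights `[m, m + 1)`, over all `m`. -/
theorem tsum_near {ι : Type} [Fintype ι] (s w : ι → ℝ) (hw : ∀ i, 0 ≤ w i) :
    ∑' m : ℤ, ENNReal.ofReal (∑ i : Near s m, w i) = ENNReal.ofReal (5 * ∑ i, w i) := by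
  classical
  have h1 : ∀ m : ℤ, ENNReal.ofReal (∑ i : Near s m, w i) =
      ∑ i, if |⌊s i⌋ - m| ≤ 2 then ENNReal.ofReal (w i) else 0 := by
    intro m
    rw [ENNReal.ofReal_sum_of_nonneg (f := fun i : Near s m => w i) (fun i _ => hw i), ← sum_near s m]
    · refine Finset.sum_congr rfl fun i _ => ?_
      rw [if_pos i.2]
    · intro i hi
      rw [if_neg hi]
  simp_rw [h1]
  rw [Summable.tsum_finsetSum (fun i _ => ENNReal.summable)]
  have h2 : ∀ i, ∑' m : ℤ, (if |⌊s i⌋ - m| ≤ 2 then ENNReal.ofReal (w i) else 0) =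
      5 * ENNReal.ofReal (w i) := by
    intro i
    rw [tsum_eq_sum (s := Finset.Icc (⌊s i⌋ - 2) (⌊s i⌋ + 2))]
    · rw [Finset.sum_congr rfl (g := fun _ => ENNReal.ofReal (w i))]
      · rw [Finset.sum_const, Int.card_Icc, nsmul_eq_mul]
        congr 1
        have : (⌊s i⌋ + 2 + 1 - (⌊s i⌋ - 2)).toNat = 5 := by
          have : ⌊s i⌋ + 2 + 1 - (⌊s i⌋ - 2) = 5 := by ring
          rw [this]; rfl
        rw [this]
        norm_num
      · intro m hm
        rw [Finset.mem_Icc] at hm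
        rw [if_pos (by rw [abs_le]; constructor <;> omega)]
    · intro m hm
      rw [Finset.mem_Icc] at hm
      apply if_neg
      intro h
      rw [abs_le] at h
      apply hm
      constructor <;> omega
  simp_rw [h2]
  rw [← Finset.mul_sum, ENNReal.ofReal_mul (by norm_num),
    ENNReal.ofReal_sum_of_nonneg (fun i _ => hw i)]
  congr 1
  norm_num

/-- The tube inequality for the family `b` on `B`, with constant `C`. -/
def TubeIneq (q C : ℝ) (B : Set (Vec d)) (b : Vec d → Vec d) : Prop :=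
  ∀ (K : ℝ≥0) (θ δ : ℝ), 0 < θ → 0 < δ → δ < 1 → ∀ (ι : Type) [Fintype ι]
    (v c : ι → Vec d) (s a : ι → ℝ), (∀ i, ‖v i‖ ≤ 1) →
    (∀ i j, i ≠ j → δ ≤ ‖dir (v i) - dir (v j)‖) →
    (∀ i, ENNReal.ofReal θ * volume (ball (v i) (δ / 2)) ≤
      volume {w | w ∈ B ∧ ‖w - v i‖ < δ / 2 ∧ ‖c i - (b w + s i • w)‖ ≤ K * δ}) →
    eLpNorm (fun y : Space d => ∑ i, (tube δ (dir (v i))
        (WithLp.toLp 2 (c i, s i))).indicator (fun _ => a i) y) (ENNReal.ofReal q) volume
      ≤ ENNReal.ofReal (C * θ ^ (-(1 / (q * d))) * (1 + K) ^ ((d + 1) / q) * δ ^ (d / q) *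
          (∑ i, |a i| ^ (q * d / (q * d - 1))) ^ (1 - 1 / (q * d)))

/-- **The tube inequality from the strong type inequality on slabs.** -/
theorem tubes_of_strong (hd : 1 ≤ d) {q : ℝ} (hq : ((d : ℝ) + 1) / d < q) : ∃ D : ℝ, 0 < D ∧
    ∀ (Q : ℝ) (B : Set (Vec d)) (b : Vec d → Vec d), 0 ≤ Q → MeasurableSet B → Measurable b →
    (∀ a : ℝ, StrongAt q Q (Icc a (a + 1)) B b) → TubeIneq q (D * Q ^ (1 / q)) B b := by
  obtain ⟨hd0, hq1, hqd, hr, hs0, hq2⟩ := exp_facts hd hq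
  have hom := om_pos (d := d)
  have hq0 : 0 < q := by linarith
  have hp1 : 1 ≤ q - 1 / d := by
    rw [add_div, div_self hd0.ne'] at hq
    linarith
  refine ⟨(5 ^ (q - 1 / (d : ℝ)) * (4 ^ (d + 1) * ((1 / 2) ^ d * om d) ^ (-(1 / (d : ℝ))))) ^ (1 / q),
    by positivity, ?_⟩
  intro Q B b hQ hB hb hS K θ δ hθ hδ hδ1 ι _ v c s a hv hsep hE
  have hK0 : (0 : ℝ) ≤ K := K.2
  have hsep' : ∀ i j, i ≠ j → δ ≤ ‖v i - v j‖ := fun i j hij => (hsep i j hij).trans (dir_sub_le _ _)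
  set e : ℝ := q * d / (q * d - 1) with he
  set Sa : ℝ := ∑ i, |a i| ^ e with hSa
  have hSa0 : 0 ≤ Sa := Finset.sum_nonneg fun i _ => by positivity
  set V : ℝ := Q * ((4 + K) * δ) ^ (d + 1) *
        (((δ / 2) ^ d * om d) ^ (-(1 / (d : ℝ))) * θ ^ (-(1 / (d : ℝ)))) with hV
  have hV0 : 0 ≤ V := by positivity
  -- the slabs
  have hslab : ∀ m : ℤ, ∫⁻ t in Ico (m : ℝ) (m + 1), ∫⁻ x : Vec d, Gw δ v c s a x t ^ q ≤
      ENNReal.ofReal V * ENNReal.ofReal (∑ i : Near s m, |a i| ^ e) ^ (q - 1 / d) := by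
    intro m
    have h1 := tubes_int hd hq hQ hB hb (hS m) (K := K) hθ hδ hδ1 (fun i : Near s m => v i)
      (fun i => c i) (fun i => s i) (fun i => a i) (fun i => hv i)
      (fun i j hij => hsep' i j (fun h => hij (Subtype.ext h))) (fun i => hE i)
    refine le_trans ?_ h1
    refine le_trans ?_ (lintegral_mono_set Ico_subset_Icc_self)
    refine setLIntegral_mono' measurableSet_Ico fun t ht => ?_
    refine lintegral_mono fun x => ?_
    rw [Gw_near hδ hδ1 v c s a hv m ht x]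
  have hall : ∫⁻ t, ∫⁻ x : Vec d, Gw δ v c s a x t ^ q ≤
      ENNReal.ofReal (V * (5 * Sa) ^ (q - 1 / d)) := by
    have hcov : (univ : Set ℝ) ⊆ ⋃ m : ℤ, Ico (m : ℝ) (m + 1) := by
      intro t _
      exact mem_iUnion.2 ⟨⌊t⌋, Int.floor_le t, Int.lt_floor_add_one t⟩
    calc ∫⁻ t, ∫⁻ x : Vec d, Gw δ v c s a x t ^ q
        = ∫⁻ t in univ, ∫⁻ x : Vec d, Gw δ v c s a x t ^ q := by rw [Measure.restrict_univ]
      _ ≤ ∫⁻ t in ⋃ m : ℤ, Ico (m : ℝ) (m + 1), ∫⁻ x : Vec d, Gw δ v c s a x t ^ q :=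
          lintegral_mono_set hcov
      _ ≤ ∑' m : ℤ, ∫⁻ t in Ico (m : ℝ) (m + 1), ∫⁻ x : Vec d, Gw δ v c s a x t ^ q :=
          lintegral_iUnion_le _ _
      _ ≤ ∑' m : ℤ, ENNReal.ofReal V *
            ENNReal.ofReal (∑ i : Near s m, |a i| ^ e) ^ (q - 1 / (d : ℝ)) :=
          ENNReal.tsum_le_tsum hslab
      _ = ENNReal.ofReal V * ∑' m : ℤ,
            ENNReal.ofReal (∑ i : Near s m, |a i| ^ e) ^ (q - 1 / (d : ℝ)) := ENNReal.tsum_mul_left
      _ ≤ ENNReal.ofReal V * (∑' m : ℤ,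
            ENNReal.ofReal (∑ i : Near s m, |a i| ^ e)) ^ (q - 1 / (d : ℝ)) := by
          gcongr
          exact tsum_rpow_le _ hp1
      _ = ENNReal.ofReal (V * (5 * Sa) ^ (q - 1 / d)) := by
          rw [tsum_near s (fun i => |a i| ^ e) (fun i => by positivity),
            ENNReal.ofReal_rpow_of_nonneg (by positivity) hq2.le, ← ENNReal.ofReal_mul hV0]
  have hval : V * (5 * Sa) ^ (q - 1 / d) ≤
      (5 ^ (q - 1 / (d : ℝ)) * (4 ^ (d + 1) * ((1 / 2) ^ d * om d) ^ (-(1 / (d : ℝ))))) *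
        Q * θ ^ (-(1 / (d : ℝ))) * (1 + K : ℝ) ^ ((d : ℝ) + 1) * δ ^ (d : ℝ) *
        Sa ^ (q - 1 / d) := by
    have e1 : ((4 + K) * δ : ℝ) ^ (d + 1) ≤ 4 ^ (d + 1) * (1 + K : ℝ) ^ ((d : ℝ) + 1) * δ ^ (d + 1) := by
      have h1 : (4 + K : ℝ) ≤ 4 * (1 + K) := by linarith
      have h2 : (1 + K : ℝ) ^ ((d : ℝ) + 1) = (1 + K : ℝ) ^ (d + 1) := by
        rw [← Real.rpow_natCast _ (d + 1)]
        push_cast
        rfl
      rw [h2, mul_pow, ← mul_pow 4]
      gcongr
    have e2 : (((δ / 2) ^ d * om d : ℝ)) ^ (-(1 / (d : ℝ))) =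
        δ⁻¹ * ((1 / 2) ^ d * om d) ^ (-(1 / (d : ℝ))) := by
      have h1 : ((δ / 2) ^ d * om d : ℝ) = δ ^ (d : ℝ) * ((1 / 2) ^ d * om d) := by
        rw [div_eq_mul_one_div, mul_pow, Real.rpow_natCast]
        ring
      rw [h1, Real.mul_rpow (by positivity) (by positivity), ← Real.rpow_mul hδ.le]
      have : (d : ℝ) * (-(1 / (d : ℝ))) = -1 := by field_simp
      rw [this, Real.rpow_neg_one]
    have e3 : δ ^ (d + 1) * δ⁻¹ = δ ^ (d : ℝ) := by
      rw [Real.rpow_natCast]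
      field_simp
      ring
    have e4 : (5 * Sa) ^ (q - 1 / (d : ℝ)) = 5 ^ (q - 1 / (d : ℝ)) * Sa ^ (q - 1 / (d : ℝ)) :=
      Real.mul_rpow (by norm_num) hSa0
    calc V * (5 * Sa) ^ (q - 1 / d)
        ≤ Q * (4 ^ (d + 1) * (1 + K : ℝ) ^ ((d : ℝ) + 1) * δ ^ (d + 1)) *
        (((δ / 2) ^ d * om d) ^ (-(1 / (d : ℝ))) * θ ^ (-(1 / (d : ℝ)))) *
          (5 * Sa) ^ (q - 1 / d) := by
          rw [hV]
          gcongr
      _ = (5 ^ (q - 1 / (d : ℝ)) * (4 ^ (d + 1) * ((1 / 2) ^ d * om d) ^ (-(1 / (d : ℝ))))) *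
        Q * θ ^ (-(1 / (d : ℝ))) * (1 + K : ℝ) ^ ((d : ℝ) + 1) * (δ ^ (d + 1) * δ⁻¹) *
        Sa ^ (q - 1 / d) := by
          rw [e2, e4]
          ring
      _ = _ := by rw [e3]
  set D : ℝ := 5 ^ (q - 1 / (d : ℝ)) * (4 ^ (d + 1) * ((1 / 2) ^ d * om d) ^ (-(1 / (d : ℝ))))
    with hD
  have hD0 : 0 < D := by positivity
  have hint := hall.trans (ENNReal.ofReal_le_ofReal hval)
  have hp0 : ENNReal.ofReal q ≠ 0 := by
    rw [ne_eq, ENNReal.ofReal_eq_zero, not_le]
    exact hq0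
  rw [eLpNorm_eq_lintegral_rpow_enorm_toReal hp0 ENNReal.ofReal_ne_top, ENNReal.toReal_ofReal hq0.le]
  have hle : ∫⁻ y : Space d, ‖Gr δ v c s a y‖ₑ ^ q ≤
      ∫⁻ t, ∫⁻ x : Vec d, Gw δ v c s a x t ^ q := by
    have h1 := fubini_T (d := d) (T := univ) MeasurableSet.univ
      ((Gr_measurable δ v c s a).enorm.pow_const q)
    simp only [mem_univ, Set.ofPred_true, Measure.restrict_univ] at h1
    rw [h1]
    refine lintegral_mono fun t => lintegral_mono fun x => ?_
    exact ENNReal.rpow_le_rpow (enorm_Gr_le δ v c s a x t) hq0.le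
  have hint := hle.trans hint
  calc (∫⁻ y : Space d, ‖Gr δ v c s a y‖ₑ ^ q) ^ (1 / q)
      ≤ (ENNReal.ofReal (D * Q * θ ^ (-(1 / (d : ℝ))) *
          (1 + K : ℝ) ^ ((d : ℝ) + 1) * δ ^ (d : ℝ) * Sa ^ (q - 1 / d))) ^ (1 / q) :=
        ENNReal.rpow_le_rpow hint (by positivity)
    _ = ENNReal.ofReal ((D * Q * θ ^ (-(1 / (d : ℝ))) *
          (1 + K : ℝ) ^ ((d : ℝ) + 1) * δ ^ (d : ℝ) * Sa ^ (q - 1 / d)) ^ (1 / q)) :=
        ENNReal.ofReal_rpow_of_nonneg (by positivity) (by positivity)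
    _ = _ := by
        congr 1
        rw [Real.mul_rpow (by positivity) (by positivity), Real.mul_rpow (by positivity) (by positivity),
          Real.mul_rpow (by positivity) (by positivity), Real.mul_rpow (by positivity) (by positivity),
          Real.mul_rpow hD0.le hQ,
          ← Real.rpow_mul hθ.le, ← Real.rpow_mul (by positivity), ← Real.rpow_mul hδ.le,
          ← Real.rpow_mul hSa0]
        have f2 : ((d : ℝ) + 1) * (1 / q) = (d + 1) / q := by ring
        have f3 : (d : ℝ) * (1 / q) = d / q := by ring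
        have f4 : (q - 1 / d) * (1 / q) = 1 - 1 / (q * d) := by field_simp
        have f5 : -(1 / (d : ℝ)) * (1 / q) = -(1 / (q * d)) := by field_simp
        rw [f2, f3, f4, f5]

end Pool.Agent.V1282.TW.NT
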