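import Pool.Agent.TH426.Kt.Main

set_option autoImplicit false
set_option maxHeartbeats 1000000

/-!
Towers of families of lines in `ℝ^d × ℝ`: the definitions, and the class of stages in the form used by
the closure theorem of `Pool.Agent.TH426.Kt` (the definitions and the proofs of this file are those of
the starting file `Results/MP_ac5134_an/TowerTranslates.lean`).
-/

open MeasureTheory Set ENNReal NNReal Metric

namespace Pool.Agent.V1282.TW

/-- Euclidean space `ℝ^d`. -/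
abbrev Vec (d : ℕ) : Type := EuclideanSpace ℝ (Fin d)

/-- Euclidean space `ℝ^{d+1}`, written as `ℝ^d × ℝ` with the Euclidean norm. -/
abbrev Space (d : ℕ) : Type := WithLp 2 (Vec d × ℝ)

/-- The unit vector `(v, 1)/√(1+|v|²)`. -/
noncomputable def dir {d : ℕ} (v : Vec d) : Space d :=
  (√(1 + ‖v‖ ^ 2))⁻¹ • WithLp.toLp 2 (v, (1:ℝ))

/-- The closed tube of length `1` and radius `δ` with centre `a` and axis direction `e`. -/
def tube {d : ℕ} (δ : ℝ) (e a : Space d) : Set (Space d) :=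
  {y | |inner ℝ (y - a) e| ≤ 1 / 2 ∧ ‖(y - a) - (inner ℝ (y - a) e : ℝ) • e‖ ≤ δ}

/-- The point of height `s` on the line `{(b v + s v, s)}`. -/
noncomputable def linePt {d : ℕ} (b : Vec d → Vec d) (v : Vec d) (s : ℝ) : Space d :=
  WithLp.toLp 2 (b v + s • v, s)

/-- Supremum of the averages of `|f|` over the `δ`-tubes with axis on the line number `v`. -/
noncomputable def lineMax {d : ℕ} (δ : ℝ) (b : Vec d → Vec d) (f : Space d → ℝ) (v : Vec d) : ℝ≥0∞ :=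
  ⨆ s : ℝ, (volume (tube δ (dir v) (linePt b v s)))⁻¹ *
    ∫⁻ y in tube δ (dir v) (linePt b v s), ‖f y‖ₑ

/-- The Kakeya maximal estimate for the lines `{(b v + t v, t)}`, `v ∈ B`, at the exponent
`n = d + 1`, for the tubes of all widths `δ < 1`, with the constants `C ε` and the loss `δ^(-ε)`. -/
def Maximal {d : ℕ} (C : ℝ → ℝ≥0∞) (B : Set (Vec d)) (b : Vec d → Vec d) : Prop :=
  ∀ ε : ℝ, 0 < ε → ∀ δ : ℝ, 0 < δ → δ < 1 → ∀ f : Space d → ℝ, Measurable f →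
    ∫⁻ v in B, lineMax δ b f v ^ (d + 1)
      ≤ C ε * ENNReal.ofReal (δ ^ (-ε)) * ∫⁻ y, ‖f y‖ₑ ^ (d + 1)

/-- Up to a null set, `B` is covered by countably many measurable sets on which `b` is Lipschitz. -/
def LipPieces {d : ℕ} (B : Set (Vec d)) (b : Vec d → Vec d) : Prop :=
  ∃ P : ℕ → Set (Vec d), (∀ k, MeasurableSet (P k)) ∧ volume (B \ ⋃ k, P k) = 0 ∧
    ∀ k, ∃ C : ℝ≥0, LipschitzOnWith C b (P k)

/-- For almost every height `t`, almost every point of height `t` lies on at most `M` of the lines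
with direction in `B`. -/
def OverlapLE {d : ℕ} (M : ℕ) (B : Set (Vec d)) (b : Vec d → Vec d) : Prop :=
  ∀ᵐ t : ℝ, ∀ᵐ y : Vec d, {v | v ∈ B ∧ b v + t • v = y}.encard ≤ M

/-- For almost every height `t` the section map `v ↦ b v + t v` becomes monotone on `B` after
composition with an invertible linear map `K` (which may depend on `t`). -/
def SectionMonotone {d : ℕ} (B : Set (Vec d)) (b : Vec d → Vec d) : Prop :=
  ∀ᵐ t : ℝ, ∃ K : Vec d →L[ℝ] Vec d, K.det ≠ 0 ∧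
    ∀ v ∈ B, ∀ w ∈ B, 0 ≤ inner ℝ (K ((b v + t • v) - (b w + t • w))) (v - w)

/-- The polynomial map `ℝ^d → ℝ^d` with components `P i`. -/
noncomputable def polyMap {d : ℕ} (P : Fin d → MvPolynomial (Fin d) ℝ) (v : Vec d) : Vec d :=
  WithLp.toLp 2 (fun i => MvPolynomial.eval (fun j => v j) (P i))

/-- `b` is of class `C^k` on `B` in the sense of Taylor approximation, with constant `A`: at every
`v₀ ∈ B` there is a polynomial map of degree `< k` with `|b v - P v| ≤ A |v - v₀|^k` on `B`. -/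
def TaylorClass {d : ℕ} (k : ℕ) (A : ℝ) (B : Set (Vec d)) (b : Vec d → Vec d) : Prop :=
  ∀ v₀ ∈ B, ∃ P : Fin d → MvPolynomial (Fin d) ℝ, (∀ i, (P i).totalDegree < k) ∧
    ∀ v ∈ B, ‖b v - polyMap P v‖ ≤ A * ‖v - v₀‖ ^ k

/-- The stages: arbitrary families of lines in the plane; families with at most `M` lines through
almost every point, given by a map that is Lipschitz on countably many pieces; section-monotone
families; families with the Taylor constants `A k` of order `k`, `k ≥ 1`; all the families that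
satisfy the Kakeya maximal estimate with the constants `c ε d * M`. -/
inductive Stage (A : ℕ → ℝ) (c : ℝ → ℕ → ℝ≥0) :
    (d : ℕ) → ℝ≥0 → Set (Vec d) → (Vec d → Vec d) → Prop
  | planar {B : Set (Vec 1)} {b : Vec 1 → Vec 1} : Stage A c 1 1 B b
  | overlap {d M : ℕ} {B : Set (Vec d)} {b : Vec d → Vec d} (hM : 1 ≤ M)
      (hL : LipPieces B b) (hO : OverlapLE M B b) : Stage A c d M B b
  | monotone {d : ℕ} {B : Set (Vec d)} {b : Vec d → Vec d} (hS : SectionMonotone B b) :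
      Stage A c d 1 B b
  | taylor {d : ℕ} {B : Set (Vec d)} {b : Vec d → Vec d} (h : ∀ k, 1 ≤ k → TaylorClass k (A k) B b) :
      Stage A c d 1 B b
  | maximal {d : ℕ} {M : ℝ≥0} {B : Set (Vec d)} {b : Vec d → Vec d}
      (h : Maximal (fun ε => c ε d * M) B b) : Stage A c d M B b

/-- The two components of the vector `v` in the orthogonal splitting `Φ`. -/
noncomputable def split {d d1 d2 : ℕ} (Φ : Vec d ≃ₗᵢ[ℝ] WithLp 2 (Vec d1 × Vec d2)) (v : Vec d) :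
    Vec d1 × Vec d2 := WithLp.ofLp (Φ v)

/-- The family `b` on `B` is the skew product of the family `b1` on `B1` and of the families `b2 v` on
`B2 v`, `v ∈ B1`, for the orthogonal splitting `Φ` of `ℝ^d`; all the data are measurable. -/
def IsSkew {d d1 d2 : ℕ} (Φ : Vec d ≃ₗᵢ[ℝ] WithLp 2 (Vec d1 × Vec d2)) (B : Set (Vec d))
    (B1 : Set (Vec d1)) (B2 : Vec d1 → Set (Vec d2)) (b : Vec d → Vec d) (b1 : Vec d1 → Vec d1)
    (b2 : Vec d1 → Vec d2 → Vec d2) : Prop :=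
  MeasurableSet {z : Vec d1 × Vec d2 | z.1 ∈ B1 ∧ z.2 ∈ B2 z.1} ∧
    Measurable (Function.uncurry b2) ∧ MeasurableSet B ∧ B ⊆ closedBall 0 1 ∧ Measurable b ∧
    ∀ v ∈ B, (split Φ v).1 ∈ B1 ∧ (split Φ v).2 ∈ B2 (split Φ v).1 ∧
      split Φ (b v) = (b1 (split Φ v).1, b2 (split Φ v).1 (split Φ v).2)

/-- Towers over a class `𝒮` of stages; `M` is the multiplicity and `B` the set of directions. -/
inductive Tower (𝒮 : (d : ℕ) → ℝ≥0 → Set (Vec d) → (Vec d → Vec d) → Prop) :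
    (d : ℕ) → ℝ≥0 → Set (Vec d) → (Vec d → Vec d) → Prop
  | stage {d : ℕ} {M : ℝ≥0} {B : Set (Vec d)} {b : Vec d → Vec d} (hd : 1 ≤ d)
      (hB : MeasurableSet B) (hB1 : B ⊆ closedBall 0 1) (hb : Measurable b) (h : 𝒮 d M B b) :
      Tower 𝒮 d M B b
  | pieces {d : ℕ} {M : ℝ≥0} {b : Vec d → Vec d} (m : ℕ → ℝ≥0) (B : ℕ → Set (Vec d))
      (h : ∀ j, Tower 𝒮 d (m j) (B j) b) (hM : ∑' j, (m j : ℝ≥0∞) ≤ M) : Tower 𝒮 d M (⋃ j, B j) b
  | skew {d d1 d2 : ℕ} {M1 M2 : ℝ≥0} {B : Set (Vec d)} {B1 : Set (Vec d1)}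
      {B2 : Vec d1 → Set (Vec d2)} {b : Vec d → Vec d} {b1 : Vec d1 → Vec d1}
      {b2 : Vec d1 → Vec d2 → Vec d2} (Φ : Vec d ≃ₗᵢ[ℝ] WithLp 2 (Vec d1 × Vec d2))
      (hd1 : 1 ≤ d1) (hd2 : 1 ≤ d2) (hM2 : 0 < M2)
      (h1 : Tower 𝒮 d1 M1 B1 b1) (h2 : ∀ v ∈ B1, Tower 𝒮 d2 M2 (B2 v) (b2 v))
      (hs : IsSkew Φ B B1 B2 b b1 b2) : Tower 𝒮 d (M1 * M2) B b

open Pool.Agent.TH426.Kt (KTower RegBase BaseBd Rough AllB LMb VanOff Pw win spl)

theorem toK {𝒮 : (d : ℕ) → ℝ≥0 → Set (Vec d) → (Vec d → Vec d) → Prop}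
    {𝓑 : (d : ℕ) → ℝ → ℝ≥0 → Set (Vec d) → (Vec d → Vec d) → Prop}
    (h0 : ∀ {d : ℕ} {M : ℝ≥0} {B : Set (Vec d)} {b : Vec d → Vec d}, 1 ≤ d → MeasurableSet B →
      B ⊆ closedBall 0 1 → Measurable b → 𝒮 d M B b → 𝓑 d (d + 1) M B b)
    {d : ℕ} {M : ℝ≥0} {B : Set (Vec d)} {b : Vec d → Vec d} (h : Tower 𝒮 d M B b) :
    KTower 𝓑 d (d + 1) M B b := by
  induction h with
  | stage hd hB hB1 hb h => exact KTower.base (h0 hd hB hB1 hb h)
  | pieces m B h hM ih => exact KTower.union m B ih hM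
  | @skew d d1 d2 M1 M2 B B1 B2 b b1 b2 Φ hd1 hd2 hM2 h1 h2 hs ih1 ih2 =>
    obtain ⟨hB2, hb2, hB, hB1, hb, hbB⟩ := hs
    have hd : (d : ℝ) = d1 + d2 := by
      have := Pool.Agent.TH426.Kt.dim_eq Φ
      exact_mod_cast this
    have e : (d : ℝ) + 1 = (d1 + 1) + (d2 + 1) - 1 := by rw [hd]; ring
    rw [e]
    exact KTower.skew Φ hd1 hd2 hM2 ih1 ih2 hB2 hb2 hB hB1 hb hbB

/-- The class of stages in the form used by the closure theorem. -/
def GenB (A : ℕ → ℝ) (c : ℝ → ℕ → ℝ≥0)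
    (d : ℕ) (p : ℝ) (M : ℝ≥0) (B : Set (Vec d)) (b : Vec d → Vec d) : Prop :=
  AllB univ A d p M B b ∨ (p = d + 1 ∧ 1 ≤ d ∧ MeasurableSet B ∧ B ⊆ closedBall 0 1 ∧
    Measurable b ∧ Maximal (fun ε => c ε d * M) B b)

theorem genB_reg (A : ℕ → ℝ) (c : ℝ → ℕ → ℝ≥0) : RegBase (GenB A c) := by
  constructor
  · intro d p N B b h
    rcases h with h | h
    · exact (Pool.Agent.TH426.Kt.allB_reg univ A).meas h
    · exact ⟨h.2.2.1, h.2.2.2.1, h.2.2.2.2.1⟩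
  · intro d p N B b h
    rcases h with h | h
    · exact (Pool.Agent.TH426.Kt.allB_reg univ A).expo h
    · have h0 : (0 : ℝ) ≤ d := Nat.cast_nonneg d
      rw [h.1]
      constructor <;> linarith

theorem genB_bd (A : ℕ → ℝ) (c : ℝ → ℕ → ℝ≥0) (ε : ℝ) (hε : 0 < ε) :
    ∃ c' : ℕ → ℝ≥0∞, (∀ d, c' d ≠ ∞) ∧ ∀ (δ : ℝ) (k : ℤ), 0 < δ → δ < 1 →
      BaseBd (GenB A c) (3 * δ) (win univ k) 1 c' (Pw ε δ) 1 := by
  obtain ⟨c2, hc2, hbd⟩ := Pool.Agent.TH426.Kt.allB_bd A ε hε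
  set c1 : ℕ → ℝ≥0∞ := fun d => (2 ^ d) ^ ((1 : ℝ) * (d + 1)) * ((3 * 8 ^ d) ^ ((1 : ℝ) * (d + 1)) *
    (c ε d : ℝ≥0∞)) with hc1
  have hc1t : ∀ d, c1 d ≠ ∞ := by
    intro d
    have h0 : (0 : ℝ) ≤ 1 * ((d : ℝ) + 1) := by positivity
    apply ENNReal.mul_ne_top
    · exact ENNReal.rpow_ne_top_of_nonneg h0 (ENNReal.pow_ne_top (by simp))
    · apply ENNReal.mul_ne_top _ ENNReal.coe_ne_top
      exact ENNReal.rpow_ne_top_of_nonneg h0
        (ENNReal.mul_ne_top (by simp) (ENNReal.pow_ne_top (by simp)))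
  refine ⟨fun d => c2 d + c1 d, fun d => ENNReal.add_ne_top.2 ⟨hc2 d, hc1t d⟩, ?_⟩
  intro δ k hδ hδ1 d p M B b hb
  rcases hb with hb | ⟨rfl, hd', hB, hB1, hbm, hS⟩
  · refine (hbd univ δ k MeasurableSet.univ hδ hδ1 hb).mono ?_ subset_rfl
    gcongr
    exact le_self_add
  · have hl : LMb δ univ 1 ((d : ℝ) + 1) (c ε d * M * Pw ε δ ^ d) B b := by
      apply Pool.Agent.TH426.Kt.lmb_of_nat
      intro f hf _
      refine (hS ε hε δ hδ hδ1 f hf).trans ?_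
      have h1 : ENNReal.ofReal (δ ^ (-ε)) ≤ Pw ε δ ^ d :=
        le_self_pow₀ (Pool.Agent.TH426.Kt.one_le_Pw hε hδ hδ1) (by omega)
      gcongr
    have h0 : (0 : ℝ) ≤ d := Nat.cast_nonneg d
    refine (Pool.Agent.TH426.Kt.wb_of_lmb hδ hδ1 MeasurableSet.univ
      zero_le_one (by linarith) (by linarith) hB hB1 hbm hl k).mono ?_ subset_rfl
    rw [ENNReal.one_rpow, mul_one]
    calc (2 ^ d) ^ ((1 : ℝ) * (d + 1)) * ((3 * 8 ^ d) ^ ((1 : ℝ) * (d + 1)) *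
          (c ε d * M * Pw ε δ ^ d)) = c1 d * M * Pw ε δ ^ d := by rw [hc1]; ring
      _ ≤ (c2 d + c1 d) * M * Pw ε δ ^ d := by
          gcongr
          exact le_add_self

end Pool.Agent.V1282.TW
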