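import Mathlib

set_option autoImplicit false
set_option maxHeartbeats 1000000

/-!
Duality for positive kernels: a bound `L^s → L^q` for an operator with a nonnegative kernel implies
the bound `L^{q'} → L^{s'}` for the transposed operator, with the same constant.
-/

open MeasureTheory Set ENNReal NNReal

namespace Pool.Agent.V1282.TW

theorem dual {α β : Type*} [MeasurableSpace α] [MeasurableSpace β] (μ : Measure α) [SigmaFinite μ]
    (ν : Measure β) [SigmaFinite ν] {K : α → β → ℝ≥0∞} (hK : Measurable (Function.uncurry K))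
    {q q' s s' : ℝ} (hq : q.HolderConjugate q') (hs : s.HolderConjugate s') (A : ℝ≥0∞)
    (h : ∀ f : α → ℝ≥0∞, Measurable f →
      (∫⁻ z, (∫⁻ a, K a z * f a ∂μ) ^ q ∂ν) ^ (1 / q) ≤ A * (∫⁻ a, f a ^ s ∂μ) ^ (1 / s))
    {g : β → ℝ≥0∞} (hg : Measurable g) :
    (∫⁻ a, (∫⁻ z, K a z * g z ∂ν) ^ s' ∂μ) ^ (1 / s') ≤ A * (∫⁻ z, g z ^ q' ∂ν) ^ (1 / q') := by
  have hs0 : 0 < s := hs.pos
  have hs'0 : 0 < s' := hs.symm.pos
  have hs1 : 1 < s := hs.lt
  have hs'1 : 1 < s' := hs.symm.lt
  have hq0 : 0 < q := hq.pos
  have hq'0 : 0 < q' := hq.symm.pos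
  set H : α → ℝ≥0∞ := fun a => ∫⁻ z, K a z * g z ∂ν with hH
  have hKg : Measurable (fun x : α × β => K x.1 x.2 * g x.2) :=
    hK.mul (hg.comp measurable_snd)
  have hHm : Measurable H := hKg.lintegral_prod_right'
  set S : ℕ → Set α := spanningSets μ with hS
  have hSm : ∀ n, MeasurableSet (S n) := measurableSet_spanningSets μ
  set HN : ℕ → α → ℝ≥0∞ := fun n => (S n).indicator (fun a => min (H a) n) with hHN
  have hHNm : ∀ n, Measurable (HN n) := fun n =>
    (hHm.min measurable_const).indicator (hSm n)
  set X : ℕ → ℝ≥0∞ := fun n => ∫⁻ a, HN n a ^ s' ∂μ with hX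
  set R : ℝ≥0∞ := A * (∫⁻ z, g z ^ q' ∂ν) ^ (1 / q') with hR
  have hXt : ∀ n, X n ≠ ∞ := by
    intro n
    have h1 : X n ≤ ∫⁻ a in S n, (n : ℝ≥0∞) ^ s' ∂μ := by
      rw [hX, ← lintegral_indicator (hSm n)]
      apply lintegral_mono
      intro a
      simp only [hHN]
      by_cases ha : a ∈ S n
      · simp only [indicator_of_mem ha]
        exact ENNReal.rpow_le_rpow (min_le_right _ _) hs'0.le
      · simp only [indicator_of_notMem ha]
        rw [ENNReal.zero_rpow_of_pos hs'0]
    refine (h1.trans_lt ?_).ne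
    rw [setLIntegral_const]
    exact ENNReal.mul_lt_top (ENNReal.rpow_lt_top_of_nonneg hs'0.le (by simp))
      (measure_spanningSets_lt_top μ n)
  have hXle : ∀ n, X n ^ (1 / s') ≤ R := by
    intro n
    set f : α → ℝ≥0∞ := fun a => HN n a ^ (s' - 1) with hf
    have hfm : Measurable f := (hHNm n).pow_const _
    have hHNle : ∀ a, HN n a ≤ H a := by
      intro a
      simp only [hHN]
      by_cases ha : a ∈ S n
      · simp only [indicator_of_mem ha]; exact min_le_left _ _
      · simp only [indicator_of_notMem ha]; exact zero_le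
    have hHNt : ∀ a, HN n a ≠ ∞ := by
      intro a
      simp only [hHN]
      by_cases ha : a ∈ S n
      · simp only [indicator_of_mem ha]
        exact ((min_le_right _ _).trans_lt (by simp)).ne
      · simp only [indicator_of_notMem ha]; simp
    have e1 : X n ≤ ∫⁻ a, f a * H a ∂μ := by
      apply lintegral_mono
      intro a
      have h2 : HN n a ^ s' = HN n a ^ (s' - 1) * HN n a := by
        by_cases h0 : HN n a = 0
        · rw [h0, ENNReal.zero_rpow_of_pos hs'0, mul_zero]
        · have := ENNReal.rpow_add (s' - 1) 1 h0 (hHNt a)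
          rw [sub_add_cancel, ENNReal.rpow_one] at this
          exact this
      show HN n a ^ s' ≤ HN n a ^ (s' - 1) * H a
      rw [h2]
      gcongr
      exact hHNle a
    have e2 : ∫⁻ a, f a * H a ∂μ = ∫⁻ z, (∫⁻ a, K a z * f a ∂μ) * g z ∂ν := by
      calc ∫⁻ a, f a * H a ∂μ = ∫⁻ a, ∫⁻ z, K a z * f a * g z ∂ν ∂μ := by
            apply lintegral_congr
            intro a
            rw [hH]
            simp only
            have hm1 : Measurable (fun z => K a z * g z) := hKg.comp measurable_prodMk_left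
            rw [← lintegral_const_mul _ hm1]
            apply lintegral_congr
            intro z
            ring
        _ = ∫⁻ z, ∫⁻ a, K a z * f a * g z ∂μ ∂ν := by
            rw [lintegral_lintegral_swap]
            exact ((hK.mul (hfm.comp measurable_fst)).mul (hg.comp measurable_snd)).aemeasurable
        _ = _ := by
            apply lintegral_congr
            intro z
            have hm1 : Measurable (fun a => K a z * f a) :=
              (hK.comp measurable_prodMk_right).mul hfm
            rw [lintegral_mul_const _ hm1]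
    have e3 : ∫⁻ z, (∫⁻ a, K a z * f a ∂μ) * g z ∂ν ≤
        (∫⁻ z, (∫⁻ a, K a z * f a ∂μ) ^ q ∂ν) ^ (1 / q) * (∫⁻ z, g z ^ q' ∂ν) ^ (1 / q') := by
      have hm1 : Measurable (fun x : β × α => K x.2 x.1 * f x.2) :=
        (hK.comp measurable_swap).mul (hfm.comp measurable_snd)
      exact ENNReal.lintegral_mul_le_Lp_mul_Lq ν hq hm1.lintegral_prod_right'.aemeasurable
        hg.aemeasurable
    have e4 : ∫⁻ a, f a ^ s ∂μ = X n := by
      apply lintegral_congr
      intro a
      simp only [hf]
      rw [← ENNReal.rpow_mul]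
      congr 1
      have := hs.mul_eq_add
      nlinarith
    have e5 : X n ≤ R * X n ^ (1 / s) := by
      calc X n ≤ (∫⁻ z, (∫⁻ a, K a z * f a ∂μ) ^ q ∂ν) ^ (1 / q) *
            (∫⁻ z, g z ^ q' ∂ν) ^ (1 / q') := (e1.trans e2.le).trans e3
        _ ≤ (A * (∫⁻ a, f a ^ s ∂μ) ^ (1 / s)) * (∫⁻ z, g z ^ q' ∂ν) ^ (1 / q') := by
            gcongr
            exact h f hfm
        _ = _ := by rw [e4, hR]; ring
    by_cases hX0 : X n = 0
    · rw [hX0, ENNReal.zero_rpow_of_pos (by positivity)]
      exact zero_le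
    · have h3 : X n = X n ^ (1 / s') * X n ^ (1 / s) := by
        rw [← ENNReal.rpow_add _ _ hX0 (hXt n)]
        have : 1 / s' + 1 / s = 1 := by
          rw [one_div, one_div, add_comm]
          exact hs.inv_add_inv_eq_one
        rw [this, ENNReal.rpow_one]
      have h4 : X n ^ (1 / s) ≠ 0 := by
        intro h0
        rcases ENNReal.rpow_eq_zero_iff.1 h0 with h | h
        · exact hX0 h.1
        · exact hXt n h.1
      have h5 : X n ^ (1 / s) ≠ ∞ := ENNReal.rpow_ne_top_of_nonneg (by positivity) (hXt n)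
      rw [h3] at e5
      have h6 : X n ^ (1 / s') * X n ^ (1 / s) ≤ R * X n ^ (1 / s) := by
        calc X n ^ (1 / s') * X n ^ (1 / s) ≤ R * (X n ^ (1 / s') * X n ^ (1 / s)) ^ (1 / s) := e5
          _ = R * X n ^ (1 / s) := by rw [← h3]
      exact (ENNReal.mul_le_mul_iff_left h4 h5).1 h6
  -- monotone convergence
  have hmono : Monotone HN := by
    intro m n hmn a
    simp only [hHN]
    by_cases ha : a ∈ S m
    · have ha' : a ∈ S n := monotone_spanningSets μ hmn ha
      simp only [indicator_of_mem ha, indicator_of_mem ha']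
      exact min_le_min le_rfl (by exact_mod_cast hmn)
    · simp only [indicator_of_notMem ha]; exact zero_le
  have hsup : ∀ a, ⨆ n, HN n a ^ s' = H a ^ s' := by
    intro a
    apply le_antisymm
    · apply iSup_le
      intro n
      apply ENNReal.rpow_le_rpow _ hs'0.le
      simp only [hHN]
      by_cases ha : a ∈ S n
      · simp only [indicator_of_mem ha]; exact min_le_left _ _
      · simp only [indicator_of_notMem ha]; exact zero_le
    · obtain ⟨m, hm⟩ : ∃ m, a ∈ S m := by
        have := iUnion_spanningSets μ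
        have ha : a ∈ ⋃ n, spanningSets μ n := by rw [this]; exact mem_univ a
        exact mem_iUnion.1 ha
      have hlim : Filter.Tendsto (fun n : ℕ => min (H a) (n : ℝ≥0∞) ^ s') Filter.atTop
          (nhds (H a ^ s')) := by
        have h1 : Filter.Tendsto (fun n : ℕ => min (H a) (n : ℝ≥0∞)) Filter.atTop
            (nhds (min (H a) ∞)) := by
          exact (tendsto_const_nhds).min ENNReal.tendsto_nat_nhds_top
        rw [min_eq_left le_top] at h1
        exact (ENNReal.continuous_rpow_const.tendsto _).comp h1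
      refine le_of_tendsto hlim ?_
      filter_upwards [Filter.eventually_ge_atTop m] with n hn
      refine le_trans (le_of_eq ?_) (le_iSup (fun n => HN n a ^ s') n)
      simp only [hHN]
      rw [indicator_of_mem (monotone_spanningSets μ hn hm)]
  have hint : ∫⁻ a, H a ^ s' ∂μ = ⨆ n, X n := by
    rw [hX]
    simp only
    rw [← lintegral_iSup (fun n => (hHNm n).pow_const _)]
    · apply lintegral_congr
      intro a
      exact (hsup a).symm
    · intro m n hmn a
      exact ENNReal.rpow_le_rpow (hmono hmn a) hs'0.le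
  show (∫⁻ a, H a ^ s' ∂μ) ^ (1 / s') ≤ R
  rw [hint]
  have hXR : ∀ n, X n ≤ R ^ s' := by
    intro n
    have h1 := ENNReal.rpow_le_rpow (hXle n) hs'0.le
    rwa [← ENNReal.rpow_mul, one_div_mul_cancel hs'0.ne', ENNReal.rpow_one] at h1
  calc (⨆ n, X n) ^ (1 / s') ≤ (R ^ s') ^ (1 / s') :=
        ENNReal.rpow_le_rpow (iSup_le hXR) (by positivity)
    _ = R := by rw [← ENNReal.rpow_mul, mul_one_div_cancel hs'0.ne', ENNReal.rpow_one]

end Pool.Agent.V1282.TW
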