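import Pool.Agent.V1282.TW.Defs
import Pool.Agent.Y245.Transfer

set_option autoImplicit false
set_option maxHeartbeats 1000000

/-!
From window bounds for a family of lines (given by slopes) to the Hausdorff dimension of the sets
that meet its lines in sets of positive length.
-/

open MeasureTheory Set Filter Topology ENNReal NNReal Metric

namespace Pool.Agent.V1282.TW

open Pool.Agent.TH426.Kt (W Wb lin win nb)
open Pool.Agent.H023R3.KS (weights)
open Pool.Agent.Y245.Tr (real_bound2 cover_of_dimH_lt)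

/-- The window bounds with all losses `δ^(-ε)`. -/
def WHyp {d : ℕ} (B : Set (Vec d)) (b : Vec d → Vec d) : Prop :=
  ∀ ε : ℝ, 0 < ε → ∃ A : ℝ, 0 < A ∧ ∀ (δ : ℝ) (k : ℤ), 0 < δ → δ < 1 →
    Wb (3 * δ) (win univ k) 1 ((d : ℝ) + 1) (ENNReal.ofReal (A * δ ^ (-ε))) B b

/-- The point of height `t` on the line of slope `v`. -/
noncomputable def pt {d : ℕ} (b : Vec d → Vec d) (v : Vec d) (t : ℝ) : Space d :=
  WithLp.toLp 2 (b v + t • v, t)

theorem cover_len' {ι : Type*} [Countable ι] {P J : Set ℝ} {lam : ℝ≥0∞} (A : ι → Set ℝ)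
    (hlam : lam ≠ 0) (hlam' : lam ≠ ∞)
    (hP : lam ≤ volume (P ∩ J)) (hcov : P ⊆ ⋃ j, A j)
    (w : ι → ℝ≥0∞) (hw : ∑' j, w j < 1) :
    ∃ j : ι, lam * w j ≤ volume (A j ∩ J) := by
  by_contra hcon
  push Not at hcon
  have h1 : lam ≤ lam * ∑' j, w j := by
    calc lam ≤ volume (P ∩ J) := hP
      _ ≤ volume (⋃ j, A j ∩ J) := by
          apply measure_mono
          rintro u ⟨hu1, hu2⟩
          obtain ⟨j, hj⟩ := mem_iUnion.1 (hcov hu1)
          exact mem_iUnion.2 ⟨j, hj, hu2⟩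
      _ ≤ ∑' j, volume (A j ∩ J) := measure_iUnion_le _
      _ ≤ ∑' j, lam * w j := ENNReal.tsum_le_tsum (fun j => (hcon j).le)
      _ = lam * ∑' j, w j := ENNReal.tsum_mul_left
  have h2 : lam * ∑' j, w j < lam * 1 := (ENNReal.mul_lt_mul_iff_right hlam hlam').2 hw
  rw [mul_one] at h2
  exact absurd h2 (not_lt.2 h1)

theorem nb_univ_eq (d : ℕ) {r : ℝ} (hr : 0 < r) : nb d r univ = 1 := by
  unfold nb
  rw [Measure.smul_apply, Measure.restrict_apply_univ, smul_eq_mul]
  exact ENNReal.inv_mul_cancel (measure_closedBall_pos volume _ hr).ne'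
    (measure_closedBall_lt_top).ne

/-- Lower bound for the window averages of a set. -/
theorem W_ge {d : ℕ} {r : ℝ} (hr : 0 < r) {J : Set ℝ} (hJ : MeasurableSet J) (b : Vec d → Vec d)
    (v : Vec d) {P : Set ℝ} (hP : MeasurableSet P) {F : Set (Space d)}
    (h : ∀ t ∈ P, closedBall (pt b v t) r ⊆ F) :
    volume (P ∩ J) ≤ W r J (lin b)
      (fun p => F.indicator (1 : Space d → ℝ≥0∞) (WithLp.toLp 2 p)) v := by
  unfold W
  have h1 : ∀ t ∈ P, (1 : ℝ≥0∞) ≤ ∫⁻ w, F.indicator (1 : Space d → ℝ≥0∞)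
      (WithLp.toLp 2 (lin b v t + w, t)) ∂(nb d r) := by
    intro t ht
    have h2 : (1 : ℝ≥0∞) = ∫⁻ _ : Vec d, 1 ∂(nb d r) := by
      rw [lintegral_one, nb_univ_eq d hr]
    rw [h2]
    apply lintegral_mono_ae
    have h3 : ∀ᵐ w ∂(nb d r), w ∈ closedBall (0 : Vec d) r := by
      unfold nb
      apply Measure.ae_smul_measure
      exact ae_restrict_mem measurableSet_closedBall
    filter_upwards [h3] with w hw
    have h4 : (WithLp.toLp 2 (lin b v t + w, t) : Space d) ∈ F := by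
      apply h t ht
      rw [mem_closedBall, dist_eq_norm]
      have h5 : (WithLp.toLp 2 (lin b v t + w, t) : Space d) - pt b v t =
          WithLp.toLp 2 (w, (0 : ℝ)) := by
        unfold pt lin
        rw [← WithLp.toLp_sub]
        congr 1
        simp
      rw [h5, WithLp.prod_norm_eq_of_L2]
      simpa using hw
    rw [indicator_of_mem h4]
    simp
  calc volume (P ∩ J) = ∫⁻ _ in P ∩ J, 1 := by simp
    _ ≤ ∫⁻ t in P ∩ J, ∫⁻ w, F.indicator (1 : Space d → ℝ≥0∞)
        (WithLp.toLp 2 (lin b v t + w, t)) ∂(nb d r) := by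
        apply setLIntegral_mono' (hP.inter hJ)
        intro t ht
        exact h1 t ht.1
    _ ≤ _ := lintegral_mono_set inter_subset_right

theorem W_meas {d : ℕ} {r : ℝ} {J : Set ℝ} {b : Vec d → Vec d} (hb : Measurable b)
    {g : Vec d × ℝ → ℝ≥0∞} (hg : Measurable g) : Measurable (W r J (lin b) g) := by
  unfold W
  have hl := Pool.Agent.TH426.Kt.measurable_lin hb
  have h : Measurable (fun q : (Vec d × ℝ) × Vec d => g (lin b q.1.1 q.1.2 + q.2, q.1.2)) := by
    apply hg.comp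
    exact ((hl.comp measurable_fst).add measurable_snd).prodMk (measurable_snd.comp measurable_fst)
  have h1 : Measurable (fun q : Vec d × ℝ => ∫⁻ w, g (lin b q.1 q.2 + w, q.2) ∂(nb d r)) :=
    h.lintegral_prod_right'
  exact h1.lintegral_prod_right'

theorem content {d : ℕ} {s lam : ℝ} (hlam : 0 < lam) (hs0 : 0 ≤ s) (hs : s < (d:ℝ) + 1)
    {B S : Set (Vec d)} {b : Vec d → Vec d} (hB : MeasurableSet B) (hb : Measurable b)
    (hSB : S ⊆ B) (hmax : WHyp B b) {K : Set (Space d)} (k : ℤ)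
    (hseg : ∀ v ∈ S, ENNReal.ofReal lam ≤ volume ({t : ℝ | pt b v t ∈ K} ∩ win univ k)) :
    ∃ C : ℝ, 0 < C ∧ ∀ (x : ℕ → Space d) (r : ℕ → ℝ), (∀ i, 0 < r i ∧ r i ≤ 1 / 2) →
      K ⊆ ⋃ i, closedBall (x i) (r i) →
      volume S ≤ ENNReal.ofReal C * ∑' i, ENNReal.ofReal (r i ^ s) := by
  obtain ⟨c₀, hc₀, hw⟩ := weights
  set ε : ℝ := ((d:ℝ) + 1 - s) / 2 with hε
  have hε0 : 0 < ε := by rw [hε]; linarith
  obtain ⟨A₁, hA₁, hmx⟩ := hmax ε hε0
  set A₀ : ℝ := A₁ * 3 ^ ε with hA₀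
  have hA₀0 : 0 < A₀ := by positivity
  set c₁ : ℝ := lam * c₀ with hc₁
  have hc₁0 : 0 < c₁ := by positivity
  obtain ⟨C₁, hC₁, hreal⟩ := real_bound2 d (d + 1) hc₁0 hA₀0 hε0 hs0
    (η := 0) (by rw [hε]; linarith)
  set V := volume (ball (0 : Space d) 1) with hV
  have hV0 : V ≠ 0 := (measure_ball_pos volume _ one_pos).ne'
  have hVt : V ≠ ∞ := measure_ball_lt_top.ne
  have hV' : 0 < V.toReal := ENNReal.toReal_pos hV0 hVt
  refine ⟨C₁ * V.toReal, by positivity, ?_⟩
  intro x r hr hcov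
  have hex : ∀ i, ∃ j : ℕ, (1 / 2 : ℝ) ^ (j + 2) < r i ∧ r i ≤ (1 / 2) ^ (j + 1) := by
    intro i
    obtain ⟨n, hn1, hn2⟩ := exists_nat_pow_near_of_lt_one (hr i).1
      ((hr i).2.trans (by norm_num)) (by norm_num : (0 : ℝ) < 1 / 2) (by norm_num)
    rcases n with _ | n
    · exfalso
      have := (hr i).2
      norm_num at hn1
      linarith
    · exact ⟨n, hn1, hn2⟩
  choose J hJ1 hJ2 using hex
  set A : ℕ → Set (Space d) := fun j => ⋃ i, ⋃ (_ : J i = j), closedBall (x i) (r i) with hA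
  set F : ℕ → Set (Space d) := fun j =>
    ⋃ i, ⋃ (_ : J i = j), closedBall (x i) (2 * (1 / 2) ^ (j + 1)) with hF
  have hAm : ∀ j, MeasurableSet (A j) := fun j =>
    MeasurableSet.iUnion (fun i => MeasurableSet.iUnion (fun _ => measurableSet_closedBall))
  have hFm : ∀ j, MeasurableSet (F j) := fun j =>
    MeasurableSet.iUnion (fun i => MeasurableSet.iUnion (fun _ => measurableSet_closedBall))
  set wt : ℕ → ℝ := fun j => ((j : ℝ) + 1) ^ 2 / c₁ with hwt
  have hW0 : ∀ j, 0 < wt j := fun j => by simp only [hwt]; positivity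
  have hδ0 : ∀ j : ℕ, (0 : ℝ) < (1 / 2) ^ (j + 1) := fun j => by positivity
  have hδ1 : ∀ j : ℕ, (1 / 2 : ℝ) ^ (j + 1) ≤ 1 := fun j =>
    pow_le_one₀ (by norm_num) (by norm_num)
  have hwm : MeasurableSet (win univ k) := Pool.Agent.TH426.Kt.measurableSet_win MeasurableSet.univ k
  set g : ℕ → Vec d × ℝ → ℝ≥0∞ := fun j p =>
    (F j).indicator (1 : Space d → ℝ≥0∞) (WithLp.toLp 2 p) with hg
  have hmp := WithLp.volume_preserving_toLp (Vec d) ℝ
  have hgm : ∀ j, Measurable (g j) := fun j =>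
    (measurable_one.indicator (hFm j)).comp hmp.measurable
  set G : ℕ → Vec d → ℝ≥0∞ := fun j v =>
    W ((1 / 2) ^ (j + 1)) (win univ k) (lin b) (g j) v ^ (d + 1) with hG
  have hGm : ∀ j, Measurable (G j) := fun j => (W_meas hb (hgm j)).pow_const _
  have hGint : ∀ j, ∫⁻ v in B, G j v ≤
      ENNReal.ofReal (A₀ * ((2:ℝ) ^ (j + 1)) ^ (0 + ε)) * volume (F j) := by
    intro j
    have h1 := hmx ((1 / 2) ^ (j + 1) / 3) k (by positivity) (by linarith [hδ1 j]) (g j) (hgm j)
    have e1 : 3 * ((1 / 2 : ℝ) ^ (j + 1) / 3) = (1 / 2) ^ (j + 1) := by ring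
    rw [e1, ENNReal.rpow_one] at h1
    have e3 : ∀ x : ℝ≥0∞, x ^ ((1 : ℝ) * ((d : ℝ) + 1)) = x ^ (d + 1) := by
      intro x
      rw [one_mul]
      exact_mod_cast ENNReal.rpow_natCast x (d + 1)
    have e4 : ∀ x : ℝ≥0∞, x ^ ((d : ℝ) + 1) = x ^ (d + 1) := by
      intro x
      exact_mod_cast ENNReal.rpow_natCast x (d + 1)
    simp only [e3, e4] at h1
    refine h1.trans ?_
    have e5 : A₁ * ((1 / 2 : ℝ) ^ (j + 1) / 3) ^ (-ε) = A₀ * ((2:ℝ) ^ (j + 1)) ^ (0 + ε) := by
      rw [hA₀, zero_add, Real.rpow_neg (by positivity), ← Real.inv_rpow (by positivity), mul_assoc,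
        ← Real.mul_rpow (by positivity) (by positivity)]
      congr 2
      rw [one_div, inv_pow]
      field_simp
    rw [e5]
    gcongr
    calc ∫⁻ t in win univ k, ∫⁻ x, g j (x, t) ^ (d + 1)
        ≤ ∫⁻ t : ℝ, ∫⁻ x, g j (x, t) ^ (d + 1) := setLIntegral_le_lintegral _ _
      _ = ∫⁻ p : Vec d × ℝ, g j p ^ (d + 1) :=
          (lintegral_prod_symm' (fun p : Vec d × ℝ => g j p ^ (d + 1)) ((hgm j).pow_const _)).symm
      _ = ∫⁻ p : Vec d × ℝ, g j p := by
          apply lintegral_congr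
          intro p
          simp only [hg]
          by_cases hp : (WithLp.toLp 2 p : Space d) ∈ F j
          · rw [indicator_of_mem hp]; simp
          · rw [indicator_of_notMem hp]; simp
      _ = ∫⁻ y : Space d, (F j).indicator (1 : Space d → ℝ≥0∞) y :=
          hmp.lintegral_comp (measurable_one.indicator (hFm j))
      _ = volume (F j) := lintegral_indicator_one (hFm j)
  -- pointwise bound
  have hpt : ∀ v ∈ S, (1 : ℝ≥0∞) ≤ ∑' j, ENNReal.ofReal (wt j) ^ (d + 1) * G j v := by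
    intro v hv
    have hk0 := hseg v hv
    have hφc : Continuous (pt b v) := by
      unfold pt
      apply (WithLp.prod_continuous_toLp 2 (Vec d) ℝ).comp
      fun_prop
    obtain ⟨j, hk⟩ := cover_len' (P := {t | pt b v t ∈ K}) (fun j : ℕ => pt b v ⁻¹' (A j))
      (by simpa using hlam) ENNReal.ofReal_ne_top hk0 (by
        intro u hu'
        have h1 := hcov hu'
        obtain ⟨i, hi⟩ := mem_iUnion.1 h1
        refine mem_iUnion.2 ⟨J i, ?_⟩
        simp only [hA, mem_preimage, mem_iUnion]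
        exact ⟨i, rfl, hi⟩) (fun j => ENNReal.ofReal (c₀ / ((j : ℝ) + 1) ^ 2)) hw
    have h2 := W_ge (hδ0 j) hwm b v (hφc.measurable (hAm j)) (F := F j) (by
      intro t ht y hy
      simp only [hA, mem_preimage, mem_iUnion] at ht
      obtain ⟨i, hi, hi2⟩ := ht
      simp only [hF, mem_iUnion]
      refine ⟨i, hi, ?_⟩
      rw [mem_closedBall] at hy hi2 ⊢
      have h6 := dist_triangle y (pt b v t) (x i)
      have h7 := hJ2 i
      rw [hi] at h7
      linarith)
    set M := W ((1 / 2) ^ (j + 1)) (win univ k) (lin b) (g j) v with hM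
    have h3 : ENNReal.ofReal lam * ENNReal.ofReal (c₀ / ((j : ℝ) + 1) ^ 2) ≤ M := hk.trans h2
    have h4 : (1 : ℝ≥0∞) ≤ ENNReal.ofReal (wt j) * M := by
      calc (1 : ℝ≥0∞) = ENNReal.ofReal (wt j) *
            (ENNReal.ofReal lam * ENNReal.ofReal (c₀ / ((j : ℝ) + 1) ^ 2)) := by
            rw [← ENNReal.ofReal_mul hlam.le, ← ENNReal.ofReal_mul (hW0 j).le]
            rw [← ENNReal.ofReal_one]
            congr 1
            simp only [hwt, hc₁]
            field_simp
        _ ≤ _ := by gcongr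
    calc (1 : ℝ≥0∞) = 1 ^ (d + 1) := (one_pow _).symm
      _ ≤ (ENNReal.ofReal (wt j) * M) ^ (d + 1) := pow_le_pow_left' h4 _
      _ = ENNReal.ofReal (wt j) ^ (d + 1) * M ^ (d + 1) := mul_pow _ _ _
      _ = ENNReal.ofReal (wt j) ^ (d + 1) * G j v := rfl
      _ ≤ _ := ENNReal.le_tsum (f := fun j => ENNReal.ofReal (wt j) ^ (d + 1) * G j v) j
  -- integrate
  have hσ : volume S ≤ ∑' j, ENNReal.ofReal (wt j) ^ (d + 1) * ∫⁻ v in B, G j v := by
    have hmj : ∀ j, Measurable (fun v : Vec d =>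
        ENNReal.ofReal (wt j) ^ (d + 1) * G j v) := fun j => (hGm j).const_mul _
    have h1 : volume S ≤ ∫⁻ v in B, ∑' j, ENNReal.ofReal (wt j) ^ (d + 1) * G j v := by
      have h2 := mul_meas_ge_le_lintegral (μ := (volume : Measure (Vec d)).restrict B)
        (Measurable.ennreal_tsum hmj) 1
      rw [one_mul] at h2
      refine le_trans ?_ h2
      rw [Measure.restrict_apply' hB]
      apply measure_mono
      intro v hv
      exact ⟨hpt v hv, hSB hv⟩
    refine h1.trans ?_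
    rw [lintegral_tsum (fun j => (hmj j).aemeasurable)]
    apply ENNReal.tsum_le_tsum
    intro j
    rw [lintegral_const_mul' _ _ (ENNReal.pow_ne_top ENNReal.ofReal_ne_top)]
  have hfr : Module.finrank ℝ (Space d) = d + 1 := by
    have : Module.finrank ℝ (Space d) = Module.finrank ℝ (Vec d × ℝ) :=
      LinearEquiv.finrank_eq (WithLp.linearEquiv 2 ℝ (Vec d × ℝ))
    rw [this, Module.finrank_prod]
    simp
  have hvF : ∀ j, volume (F j) ≤ ∑' i, if J i = j then
      ENNReal.ofReal ((2 * (1 / 2) ^ (j + 1)) ^ (d + 1)) * V else 0 := by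
    intro j
    refine (measure_iUnion_le _).trans ?_
    apply ENNReal.tsum_le_tsum
    intro i
    by_cases h : J i = j
    · simp only [h, iUnion_true, if_true]
      rw [Measure.addHaar_closedBall _ _ (by positivity), hfr]
    · simp [h]
  calc volume S
      ≤ ∑' j, ENNReal.ofReal (wt j) ^ (d + 1) * ∫⁻ v in B, G j v := hσ
    _ ≤ ∑' j, ∑' i, if J i = j then ENNReal.ofReal (wt j) ^ (d + 1) *
          (ENNReal.ofReal (A₀ * ((2:ℝ) ^ (j + 1)) ^ (0 + ε)) *
            (ENNReal.ofReal ((2 * (1 / 2) ^ (j + 1)) ^ (d + 1)) * V)) else 0 := by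
          apply ENNReal.tsum_le_tsum
          intro j
          calc _ ≤ ENNReal.ofReal (wt j) ^ (d + 1) *
                (ENNReal.ofReal (A₀ * ((2:ℝ) ^ (j + 1)) ^ (0 + ε)) *
                  volume (F j)) := by
                gcongr
                exact hGint j
            _ ≤ ENNReal.ofReal (wt j) ^ (d + 1) *
                (ENNReal.ofReal (A₀ * ((2:ℝ) ^ (j + 1)) ^ (0 + ε)) *
                  ∑' i, if J i = j then
                    ENNReal.ofReal ((2 * (1 / 2) ^ (j + 1)) ^ (d + 1)) * V else 0) := by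
                gcongr
                exact hvF j
            _ = _ := by
                rw [← ENNReal.tsum_mul_left, ← ENNReal.tsum_mul_left]
                apply tsum_congr
                intro i
                split_ifs <;> simp
    _ = ∑' i, ENNReal.ofReal (wt (J i)) ^ (d + 1) *
          (ENNReal.ofReal (A₀ * ((2:ℝ) ^ (J i + 1)) ^ (0 + ε)) *
            (ENNReal.ofReal ((2 * (1 / 2) ^ (J i + 1)) ^ (d + 1)) * V)) := by
          rw [ENNReal.tsum_comm]
          apply tsum_congr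
          intro i
          rw [tsum_eq_single (J i)]
          · simp
          · intro j hj
            rw [if_neg (fun h => hj h.symm)]
    _ ≤ ∑' i, ENNReal.ofReal (C₁ * V.toReal) * ENNReal.ofReal (r i ^ s) := by
          apply ENNReal.tsum_le_tsum
          intro i
          have h1 := hreal (J i) (r i) (hr i).1 (hJ1 i)
          have e1 : ENNReal.ofReal (wt (J i)) ^ (d + 1) *
          (ENNReal.ofReal (A₀ * ((2:ℝ) ^ (J i + 1)) ^ (0 + ε)) *
            (ENNReal.ofReal ((2 * (1 / 2) ^ (J i + 1)) ^ (d + 1)) * V)) =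
            ENNReal.ofReal ((wt (J i)) ^ (d + 1) * (A₀ * ((2:ℝ) ^ (J i + 1)) ^ (0 + ε)) *
              (2 * (1 / 2) ^ (J i + 1)) ^ (d + 1)) * V := by
            have := hW0 (J i)
            rw [← ENNReal.ofReal_pow (hW0 _).le,
              ENNReal.ofReal_mul (p := (wt (J i)) ^ (d + 1) * (A₀ * ((2:ℝ) ^ (J i + 1)) ^ (0 + ε)))
                (by positivity),
              ENNReal.ofReal_mul (p := (wt (J i)) ^ (d + 1)) (by positivity)]
            simp only [mul_assoc]
          rw [e1]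
          calc _ ≤ ENNReal.ofReal (C₁ * r i ^ s) * V := by gcongr
            _ = _ := by
              rw [ENNReal.ofReal_mul hC₁.le, ENNReal.ofReal_mul hC₁.le, ENNReal.ofReal_toReal hVt]
              ring
    _ = ENNReal.ofReal (C₁ * V.toReal) * ∑' i, ENNReal.ofReal (r i ^ s) := by
          rw [ENNReal.tsum_mul_left]

/-- **Transfer.** -/
theorem dim_ge {d : ℕ} {B S : Set (Vec d)} {b : Vec d → Vec d} (hB : MeasurableSet B)
    (hb : Measurable b) (hB1 : B ⊆ closedBall 0 1) (hSB : S ⊆ B) (hmax : WHyp B b)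
    {K : Set (Space d)} (hS : volume S ≠ 0) (hK : ∀ v ∈ S, volume {t : ℝ | pt b v t ∈ K} ≠ 0) :
    ENNReal.ofReal ((d:ℝ) + 1) ≤ dimH K := by
  by_contra hlt
  push Not at hlt
  obtain ⟨s, hs1, hs2⟩ := ENNReal.lt_iff_exists_nnreal_btwn.1 hlt
  have hs3 : (s : ℝ) < (d:ℝ) + 1 := by
    have h1 : (s : ℝ≥0∞) = ENNReal.ofReal s := by simp
    rw [h1] at hs2
    exact (ENNReal.ofReal_lt_ofReal_iff_of_nonneg s.2).1 hs2
  have hs0 : 0 < s := by
    have : (0 : ℝ≥0∞) < s := lt_of_le_of_lt zero_le hs1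
    exact_mod_cast this
  set T : ℕ × ℤ → Set (Vec d) := fun q =>
    {v | ENNReal.ofReal (1 / (q.1 + 1)) ≤ volume ({t : ℝ | pt b v t ∈ K} ∩ win univ q.2)} with hT
  have hcov : S ⊆ ⋃ q, T q := by
    intro v hv
    have h1 := hK v hv
    have h4 : ∃ k : ℤ, volume ({t : ℝ | pt b v t ∈ K} ∩ win univ k) ≠ 0 := by
      by_contra hcon
      push Not at hcon
      apply h1
      have h5 : volume (⋃ k : ℤ, {t : ℝ | pt b v t ∈ K} ∩ win univ k) = 0 :=
        measure_iUnion_null hcon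
      refine measure_mono_null ?_ h5
      intro t ht
      refine mem_iUnion.2 ⟨⌊4 * t⌋, ht, ?_, mem_univ _⟩
      have h6 := Int.floor_le (4 * t)
      have h7 := Int.lt_floor_add_one (4 * t)
      constructor <;> linarith
    obtain ⟨k, hk⟩ := h4
    obtain ⟨N, hN⟩ := ENNReal.exists_inv_nat_lt hk
    refine mem_iUnion.2 ⟨(N, k), ?_⟩
    refine le_trans ?_ hN.le
    rw [one_div, ENNReal.ofReal_inv_of_pos (by positivity)]
    apply ENNReal.inv_le_inv.2
    rw [← ENNReal.ofReal_natCast]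
    exact ENNReal.ofReal_le_ofReal (by linarith)
  have hex : ∃ q, volume (S ∩ T q) ≠ 0 := by
    by_contra hcon
    push Not at hcon
    apply hS
    have h1 : S ⊆ ⋃ q, S ∩ T q := by
      rw [← inter_iUnion]
      exact subset_inter subset_rfl hcov
    exact measure_mono_null h1 (measure_iUnion_null hcon)
  obtain ⟨⟨N, k⟩, hN⟩ := hex
  obtain ⟨C, hC, hcont⟩ := content (lam := 1 / ((N:ℝ) + 1)) (by positivity) s.2 hs3 hB hb
    (S := S ∩ T (N, k)) (inter_subset_left.trans hSB) hmax (K := K) k (fun v hv => hv.2)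
  set σS := volume (S ∩ T (N, k)) with hσ
  have hσt : σS ≠ ∞ := by
    have h1 : σS ≤ volume (closedBall (0 : Vec d) 1) :=
      measure_mono (inter_subset_left.trans (hSB.trans hB1))
    exact (h1.trans_lt measure_closedBall_lt_top).ne
  have hσ0 : 0 < σS.toReal := ENNReal.toReal_pos hN hσt
  obtain ⟨x, r, hr, hcv, hsum⟩ := cover_of_dimH_lt hs0 hs1 (ρ := 1 / 2) (by norm_num)
    (ε := σS.toReal / (2 * C)) (by positivity)
  have h8 := (hcont x r hr hcv).trans (mul_le_mul_right hsum _)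
  rw [← ENNReal.ofReal_mul hC.le] at h8
  have h9 : C * (σS.toReal / (2 * C)) = σS.toReal / 2 := by field_simp
  rw [h9] at h8
  have h10 : σS = ENNReal.ofReal σS.toReal := (ENNReal.ofReal_toReal hσt).symm
  have h11 : ENNReal.ofReal σS.toReal ≤ ENNReal.ofReal (σS.toReal / 2) := h10 ▸ h8
  rw [ENNReal.ofReal_le_ofReal_iff (by positivity)] at h11
  linarith

open Pool.Agent.TH426.Kt (KTower AllB Rough Pw) in
/-- Towers satisfy the window bounds. -/
theorem tower_whyp {d : ℕ} (hd : 1 ≤ d) (A : ℕ → ℝ) (c : ℝ → ℕ → ℝ≥0) {M : ℝ≥0}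
    {B : Set (Vec d)} {b : Vec d → Vec d} (hT : Tower (Stage A c) d M B b) :
    (MeasurableSet B ∧ B ⊆ closedBall 0 1 ∧ Measurable b) ∧ WHyp B b := by
  have hd0 : (0 : ℝ) < d := by exact_mod_cast hd
  have hK : KTower (GenB A c) d (d + 1) M B b := by
    refine toK ?_ hT
    intro d M B b hd hB hB1 hb hS
    cases hS with
    | planar => exact Or.inl (AllB.rough (Rough.planar hB hB1 hb))
    | overlap hM hL hO =>
      refine Or.inl (AllB.rough (Rough.overlap hd hM hB hB1 hb hL ?_))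
      filter_upwards [hO] with t ht _ using ht
    | monotone hS =>
      refine Or.inl (AllB.rough (Rough.monotone hd hB hB1 hb ?_))
      filter_upwards [hS] with t ht _ using ht
    | taylor h => exact Or.inl (AllB.smooth hd hB hB1 hb h)
    | maximal h => exact Or.inr ⟨rfl, hd, hB, hB1, hb, h⟩
  refine ⟨hK.meas (genB_reg A c), ?_⟩
  intro ε hε
  obtain ⟨c', hc', hbd⟩ := genB_bd A c (ε / d) (by positivity)
  have hct : Pool.Agent.TH426.Kt.cc c' (Pool.Agent.TH426.Kt.KK 1) d ≠ ∞ :=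
    Pool.Agent.TH426.Kt.cc_ne_top hc' (Pool.Agent.TH426.Kt.KK_ne_top zero_le_one) d
  set X : ℝ≥0∞ := Pool.Agent.TH426.Kt.cc c' (Pool.Agent.TH426.Kt.KK 1) d with hX
  refine ⟨(X.toReal + 1) * (M + 1), by positivity, ?_⟩
  intro δ k hδ hδ1
  have h1 : Pw (ε / d) δ ≠ 0 := (lt_of_lt_of_le one_pos
    (Pool.Agent.TH426.Kt.one_le_Pw (by positivity) hδ hδ1)).ne'
  have key := hK.bound (genB_reg A c) (r := 3 * δ) (by linarith) (J := win univ k) one_pos h1
    (Pool.Agent.TH426.Kt.Pw_ne_top _ _) one_ne_zero one_ne_top hc' (hbd δ k hδ hδ1)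
  rw [ENNReal.one_rpow, mul_one] at key
  refine key.mono ?_ subset_rfl
  have e5 : Pw (ε / d) δ ^ d = ENNReal.ofReal (δ ^ (-ε)) := by
    show ENNReal.ofReal (δ ^ (-(ε / d))) ^ d = _
    rw [← ENNReal.ofReal_pow (by positivity), ← Real.rpow_natCast, ← Real.rpow_mul hδ.le]
    congr 2
    field_simp
  rw [e5, ENNReal.ofReal_mul (by positivity), ENNReal.ofReal_mul (by positivity)]
  gcongr
  · calc X = ENNReal.ofReal X.toReal := (ENNReal.ofReal_toReal hct).symm
      _ ≤ _ := ENNReal.ofReal_le_ofReal (by linarith)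
  · calc (M : ℝ≥0∞) = ENNReal.ofReal (M : ℝ) := (ENNReal.ofReal_coe_nnreal).symm
      _ ≤ _ := ENNReal.ofReal_le_ofReal (by linarith)

end Pool.Agent.V1282.TW
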