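import Pool.Agent.V1282.TW.Dual
import Pool.Agent.TH426.Kt.Main
import Pool.Agent.TH221.Rough.Tubes

set_option autoImplicit false
set_option maxHeartbeats 400000

/-!
Strong type inequalities without loss and the window bounds of `Pool.Agent.TH426.Kt`.
-/

open MeasureTheory Set ENNReal NNReal Metric

namespace Pool.Agent.V1282.TW

open Pool.Agent.H803R2.KakFTO (Vec Space)
open Pool.Agent.TH426.Kt (W Wb lin win nb)

variable {d : ℕ}

/-- The directions in `B` whose lines are at distance at most `R` from `x` at the height `t`. -/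
def near (B : Set (Vec d)) (b : Vec d → Vec d) (R t : ℝ) (x : Vec d) : Set (Vec d) :=
  {v | v ∈ B ∧ ‖x - (b v + t • v)‖ ≤ R}

theorem near_meas {B : Set (Vec d)} (hB : MeasurableSet B) {b : Vec d → Vec d} (hb : Measurable b)
    (R t : ℝ) (x : Vec d) : MeasurableSet (near B b R t x) := by
  have h2 : MeasurableSet {v : Vec d | ‖x - (b v + t • v)‖ ≤ R} :=
    measurableSet_le (measurable_const.sub (hb.add (measurable_id.const_smul t))).norm
      measurable_const
  exact hB.inter h2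

theorem ker_int {r : ℝ} (hr : 0 < r) {J : Set ℝ} {B : Set (Vec d)} (hB : MeasurableSet B)
    (hB1 : B ⊆ closedBall 0 1) {b : Vec d → Vec d} (hb : Measurable b) (f : Vec d → ℝ≥0∞)
    (x : Vec d) (t : ℝ) :
    ∫⁻ v in B, Pool.Agent.TH426.Kt.ker r J b v (x, t) * f v =
      J.indicator 1 t * ((volume (closedBall (0 : Vec d) r))⁻¹ * ∫⁻ v in near B b r t x, f v) := by
  have h1 : ∀ v ∈ B, Pool.Agent.TH426.Kt.ker r J b v (x, t) * f v =
      J.indicator 1 t * ((volume (closedBall (0 : Vec d) r))⁻¹ *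
        {v : Vec d | ‖x - (b v + t • v)‖ ≤ r}.indicator f v) := by
    intro v hv
    unfold Pool.Agent.TH426.Kt.ker
    rw [indicator_of_mem (hB1 hv)]
    simp only [Pi.one_apply, one_mul]
    by_cases h : ‖x - (b v + t • v)‖ ≤ r
    · rw [indicator_of_mem (show v ∈ {v : Vec d | ‖x - (b v + t • v)‖ ≤ r} from h),
        indicator_of_mem (show x - lin b v t ∈ closedBall (0 : Vec d) r by
          rw [mem_closedBall, dist_zero_right]; exact h)]
      simp only [Pi.one_apply, mul_one, mul_assoc]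
    · rw [indicator_of_notMem (show v ∉ {v : Vec d | ‖x - (b v + t • v)‖ ≤ r} from h),
        indicator_of_notMem (show x - lin b v t ∉ closedBall (0 : Vec d) r by
          rw [mem_closedBall, dist_zero_right]; exact h)]
      simp
  have h2 : MeasurableSet {v : Vec d | ‖x - (b v + t • v)‖ ≤ r} :=
    measurableSet_le (measurable_const.sub (hb.add (measurable_id.const_smul t))).norm
      measurable_const
  rw [setLIntegral_congr_fun hB h1]
  have hV : volume (closedBall (0 : Vec d) r) ≠ 0 := (measure_closedBall_pos volume _ hr).ne'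
  have hVt : (volume (closedBall (0 : Vec d) r))⁻¹ ≠ ∞ := ENNReal.inv_ne_top.2 hV
  rw [lintegral_const_mul' _ _ (by
      by_cases ht : t ∈ J
      · rw [indicator_of_mem ht]; simp
      · rw [indicator_of_notMem ht]; simp), lintegral_const_mul' _ _ hVt,
    lintegral_indicator h2, Measure.restrict_restrict h2, inter_comm]
  rfl

theorem lint_q {q : ℝ} (hq : 0 < q) {r : ℝ} (hr : 0 < r) {J : Set ℝ} (hJ : MeasurableSet J)
    {B : Set (Vec d)} (hB : MeasurableSet B) (hB1 : B ⊆ closedBall 0 1) {b : Vec d → Vec d}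
    (hb : Measurable b) {f : Vec d → ℝ≥0∞} (hf : Measurable f) :
    ∫⁻ z : Vec d × ℝ, (∫⁻ v in B, Pool.Agent.TH426.Kt.ker r J b v z * f v) ^ q =
      (volume (closedBall (0 : Vec d) r))⁻¹ ^ q *
        ∫⁻ t in J, ∫⁻ x, (∫⁻ v in near B b r t x, f v) ^ q := by
  have hV : volume (closedBall (0 : Vec d) r) ≠ 0 := (measure_closedBall_pos volume _ hr).ne'
  have hVt : (volume (closedBall (0 : Vec d) r))⁻¹ ^ q ≠ ∞ :=
    ENNReal.rpow_ne_top_of_nonneg hq.le (ENNReal.inv_ne_top.2 hV)
  have hk := Pool.Agent.TH426.Kt.measurable_ker (r := r) hJ hb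
  have hm : Measurable (fun z : Vec d × ℝ =>
      ∫⁻ v in B, Pool.Agent.TH426.Kt.ker r J b v z * f v) := by
    have h1 : Measurable (fun x : (Vec d × ℝ) × Vec d =>
        Pool.Agent.TH426.Kt.ker r J b x.2 x.1 * f x.2) :=
      (hk.comp measurable_swap).mul (hf.comp measurable_snd)
    exact h1.lintegral_prod_right'
  rw [Measure.volume_eq_prod, lintegral_prod_symm _ (hm.pow_const q).aemeasurable]
  rw [← lintegral_const_mul' _ _ hVt, ← lintegral_indicator hJ]
  apply lintegral_congr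
  intro t
  by_cases ht : t ∈ J
  · rw [indicator_of_mem ht, ← lintegral_const_mul' _ _ hVt]
    apply lintegral_congr
    intro x
    rw [ker_int hr hB hB1 hb, indicator_of_mem ht, Pi.one_apply, one_mul,
      ENNReal.mul_rpow_of_nonneg _ _ hq.le]
  · rw [indicator_of_notMem ht]
    have : ∀ x, (∫⁻ v in B, Pool.Agent.TH426.Kt.ker r J b v (x, t) * f v) ^ q = 0 := by
      intro x
      rw [ker_int hr hB hB1 hb, indicator_of_notMem ht, zero_mul, ENNReal.zero_rpow_of_pos hq]
    simp only [this, lintegral_zero]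

/-- The exponents: `q = 1 + l/d`, `p = 1 + d/l`, `s' = d + l`, `s = (d + l)/(d + l - 1)`. -/
theorem expo (hd : 1 ≤ d) {l : ℝ} (hl : 0 < l) :
    (1 + l / d).HolderConjugate (1 + d / l) ∧
      ((1 + l / d) * d / ((1 + l / d) * d - 1)).HolderConjugate ((d : ℝ) + l) := by
  have hd0 : (0 : ℝ) < d := by exact_mod_cast hd
  have hd1 : (1 : ℝ) ≤ d := by exact_mod_cast hd
  constructor
  · rw [Real.holderConjugate_iff]
    constructor
    · have : 0 < l / d := by positivity
      linarith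
    · field_simp
      ring
  · have e : (1 + l / d) * d = d + l := by field_simp
    rw [e, Real.holderConjugate_iff]
    have h1 : 0 < (d : ℝ) + l - 1 := by linarith
    constructor
    · rw [lt_div_iff₀ h1]; linarith
    · field_simp
      ring

/-- From the strong type inequality to the window bound. -/
theorem wb_of_strong (hd : 1 ≤ d) {l : ℝ} (hl : 0 < l) {r : ℝ} (hr : 0 < r) {J : Set ℝ}
    (hJ : MeasurableSet J) {B : Set (Vec d)} (hB : MeasurableSet B) (hB1 : B ⊆ closedBall 0 1)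
    {b : Vec d → Vec d} (hb : Measurable b) {D : ℝ≥0∞}
    (h : ∀ f : Vec d → ℝ≥0∞, Measurable f →
      ∫⁻ t in J, ∫⁻ x, (∫⁻ v in near B b r t x, f v) ^ (1 + l / d) ≤
        D * (∫⁻ v in B, f v ^ ((1 + l / d) * d / ((1 + l / d) * d - 1))) ^ (1 + l / d - 1 / d)) :
    Wb r J l (1 + d / l) ((volume (closedBall (0 : Vec d) r))⁻¹ ^ ((d : ℝ) + l) * D ^ (d : ℝ)) B b := by
  have hd0 : (0 : ℝ) < d := by exact_mod_cast hd
  obtain ⟨hq, hs⟩ := expo hd hl
  set q : ℝ := 1 + l / d with hqd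
  set p : ℝ := 1 + d / l with hpd
  set s : ℝ := q * d / (q * d - 1) with hsd
  have hq0 : 0 < q := hq.pos
  have hp0 : 0 < p := hq.symm.pos
  have hs0 : 0 < s := hs.pos
  have hdl : 0 < (d : ℝ) + l := by linarith
  set V := volume (closedBall (0 : Vec d) r) with hVd
  have hV : V ≠ 0 := (measure_closedBall_pos volume _ hr).ne'
  have hk := Pool.Agent.TH426.Kt.measurable_ker (r := r) hJ hb
  intro g hg
  set A : ℝ≥0∞ := V⁻¹ * D ^ (1 / q) with hA
  set g' : Vec d × ℝ → ℝ≥0∞ := fun z => J.indicator 1 z.2 * g z with hg'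
  have hg'm : Measurable g' := ((measurable_one.indicator hJ).comp measurable_snd).mul hg
  have e1 : q * d = d + l := by rw [hqd]; field_simp
  have es : (q - 1 / d) / q = 1 / s := by
    rw [hsd, e1]
    have h1 : q = (d + l) / d := by rw [hqd]; field_simp
    rw [h1]
    field_simp
  have hT : ∀ f : Vec d → ℝ≥0∞, Measurable f →
      (∫⁻ z : Vec d × ℝ, (∫⁻ v in B, Pool.Agent.TH426.Kt.ker r J b v z * f v) ^ q) ^ (1 / q) ≤
        A * (∫⁻ v in B, f v ^ s) ^ (1 / s) := by
    intro f hf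
    rw [lint_q hq0 hr hJ hB hB1 hb hf]
    calc (V⁻¹ ^ q * ∫⁻ t in J, ∫⁻ x, (∫⁻ v in near B b r t x, f v) ^ q) ^ (1 / q)
        ≤ (V⁻¹ ^ q * (D * (∫⁻ v in B, f v ^ s) ^ (q - 1 / d))) ^ (1 / q) := by
          gcongr
          exact h f hf
      _ = A * (∫⁻ v in B, f v ^ s) ^ (1 / s) := by
          rw [ENNReal.mul_rpow_of_nonneg _ _ (by positivity), ← ENNReal.rpow_mul,
            mul_one_div_cancel hq0.ne', ENNReal.rpow_one,
            ENNReal.mul_rpow_of_nonneg _ _ (by positivity), ← ENNReal.rpow_mul, mul_one_div, es, hA]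
          ring
  have key := dual (volume.restrict B) (volume : Measure (Vec d × ℝ)) hk hq hs A hT hg'm
  have e2 : ∀ v ∈ B, W r J (lin b) g v = ∫⁻ z, Pool.Agent.TH426.Kt.ker r J b v z * g' z := by
    intro v hv
    rw [Pool.Agent.TH426.Kt.W_ker hJ hb hg (hB1 hv)]
    apply lintegral_congr
    intro z
    simp only [hg']
    by_cases hz : z.2 ∈ J
    · rw [indicator_of_mem hz]; simp
    · have : Pool.Agent.TH426.Kt.ker r J b v z = 0 := by
        unfold Pool.Agent.TH426.Kt.ker
        rw [indicator_of_notMem hz]; simp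
      rw [this]; simp
  have e3 : ∫⁻ z, g' z ^ p = ∫⁻ t in J, ∫⁻ x, g (x, t) ^ p := by
    rw [Measure.volume_eq_prod, lintegral_prod_symm _ (hg'm.pow_const p).aemeasurable,
      ← lintegral_indicator hJ]
    apply lintegral_congr
    intro t
    by_cases ht : t ∈ J
    · rw [indicator_of_mem ht]
      apply lintegral_congr
      intro x
      simp only [hg', indicator_of_mem ht, Pi.one_apply, one_mul]
    · rw [indicator_of_notMem ht]
      have : ∀ x, g' (x, t) ^ p = 0 := by
        intro x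
        simp only [hg', indicator_of_notMem ht, zero_mul]
        exact ENNReal.zero_rpow_of_pos hp0
      simp only [this, lintegral_zero]
  have elp : l * p = d + l := by rw [hpd]; field_simp; ring
  rw [elp, setLIntegral_congr_fun hB (fun v hv => by rw [e2 v hv])]
  rw [e3] at key
  have h1 := ENNReal.rpow_le_rpow key hdl.le
  rw [← ENNReal.rpow_mul, one_div_mul_cancel hdl.ne', ENNReal.rpow_one] at h1
  refine h1.trans (le_of_eq ?_)
  rw [ENNReal.mul_rpow_of_nonneg _ _ hdl.le, ← ENNReal.rpow_mul, hA,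
    ENNReal.mul_rpow_of_nonneg _ _ hdl.le, ← ENNReal.rpow_mul]
  have f1 : 1 / p * ((d : ℝ) + l) = l := by rw [← elp]; field_simp
  have f2 : 1 / q * ((d : ℝ) + l) = d := by rw [← e1]; field_simp
  rw [f1, f2]

/-- From the window bound to the strong type inequality. -/
theorem strong_of_wb (hd : 1 ≤ d) {l : ℝ} (hl : 0 < l) {r : ℝ} (hr : 0 < r) {J : Set ℝ}
    (hJ : MeasurableSet J) {B : Set (Vec d)} (hB : MeasurableSet B) (hB1 : B ⊆ closedBall 0 1)
    {b : Vec d → Vec d} (hb : Measurable b) {C : ℝ≥0∞} (h : Wb r J l (1 + d / l) C B b)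
    {f : Vec d → ℝ≥0∞} (hf : Measurable f) :
    ∫⁻ t in J, ∫⁻ x, (∫⁻ v in near B b r t x, f v) ^ (1 + l / d) ≤
      (volume (closedBall (0 : Vec d) r) ^ (1 + l / d) * C ^ (1 / (d : ℝ))) *
        (∫⁻ v in B, f v ^ ((1 + l / d) * d / ((1 + l / d) * d - 1))) ^ (1 + l / d - 1 / d) := by
  have hd0 : (0 : ℝ) < d := by exact_mod_cast hd
  obtain ⟨hq, hs⟩ := expo hd hl
  set q : ℝ := 1 + l / d with hqd
  set p : ℝ := 1 + d / l with hpd
  set s : ℝ := q * d / (q * d - 1) with hsd
  have hq0 : 0 < q := hq.pos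
  have hp0 : 0 < p := hq.symm.pos
  have hs0 : 0 < s := hs.pos
  have hdl : 0 < (d : ℝ) + l := by linarith
  set V := volume (closedBall (0 : Vec d) r) with hVd
  have hV : V ≠ 0 := (measure_closedBall_pos volume _ hr).ne'
  have hVt : V ≠ ∞ := measure_closedBall_lt_top.ne
  have hk := Pool.Agent.TH426.Kt.measurable_ker (r := r) hJ hb
  have e1 : q * d = d + l := by rw [hqd]; field_simp
  have elp : l * p = d + l := by rw [hpd]; field_simp; ring
  have es : (q - 1 / d) / q = 1 / s := by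
    rw [hsd, e1]
    have h1 : q = (d + l) / d := by rw [hqd]; field_simp
    rw [h1]
    field_simp
  have f3 : l * (1 / ((d : ℝ) + l)) = 1 / p := by rw [← elp]; field_simp
  set A : ℝ≥0∞ := C ^ (1 / ((d : ℝ) + l)) with hA
  have hT : ∀ g : Vec d × ℝ → ℝ≥0∞, Measurable g →
      (∫⁻ v in B, (∫⁻ z : Vec d × ℝ, Pool.Agent.TH426.Kt.ker r J b v z * g z) ^ ((d : ℝ) + l)) ^
        (1 / ((d : ℝ) + l)) ≤ A * (∫⁻ z, g z ^ p) ^ (1 / p) := by
    intro g hg
    have h1 := h g hg
    have h2 : ∫⁻ t in J, ∫⁻ x, g (x, t) ^ p ≤ ∫⁻ z, g z ^ p := by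
      rw [Measure.volume_eq_prod, lintegral_prod_symm _ (hg.pow_const p).aemeasurable]
      exact setLIntegral_le_lintegral _ _
    have h4 : ∫⁻ v in B, (∫⁻ z : Vec d × ℝ, Pool.Agent.TH426.Kt.ker r J b v z * g z) ^ ((d : ℝ) + l) =
        ∫⁻ v in B, W r J (lin b) g v ^ (l * p) := by
      rw [elp]
      refine setLIntegral_congr_fun hB (fun v hv => ?_)
      rw [Pool.Agent.TH426.Kt.W_ker hJ hb hg (hB1 hv)]
    have h5 : ∫⁻ v in B, W r J (lin b) g v ^ (l * p) ≤ C * (∫⁻ z, g z ^ p) ^ l :=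
      le_trans h1 (mul_le_mul_right (ENNReal.rpow_le_rpow h2 hl.le) _)
    rw [h4]
    have h6 := ENNReal.rpow_le_rpow h5 (show 0 ≤ 1 / ((d : ℝ) + l) by positivity)
    rw [ENNReal.mul_rpow_of_nonneg _ _ (show 0 ≤ 1 / ((d : ℝ) + l) by positivity),
      ← ENNReal.rpow_mul, f3] at h6
    rw [hA]
    convert h6 using 3
  have hk' : Measurable (Function.uncurry (fun (z : Vec d × ℝ) (v : Vec d) =>
      Pool.Agent.TH426.Kt.ker r J b v z)) := by
    generalize Pool.Agent.TH426.Kt.ker r J b = k at hk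
    exact hk.comp measurable_swap
  have key := dual (α := Vec d × ℝ) (β := Vec d)
    (K := fun z v => Pool.Agent.TH426.Kt.ker r J b v z) volume (volume.restrict B) hk' hs.symm
    hq.symm A hT hf
  rw [lint_q hq0 hr hJ hB hB1 hb hf] at key
  have h1 := ENNReal.rpow_le_rpow key hq0.le
  rw [← ENNReal.rpow_mul, one_div_mul_cancel hq0.ne', ENNReal.rpow_one,
    ENNReal.mul_rpow_of_nonneg _ _ hq0.le, ← ENNReal.rpow_mul, ← ENNReal.rpow_mul] at h1
  have f1 : 1 / s * q = q - 1 / d := by rw [← es]; field_simp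
  have f2 : 1 / ((d : ℝ) + l) * q = 1 / d := by rw [← e1]; field_simp
  rw [f1, f2] at h1
  have hVq0 : V ^ q ≠ 0 := by
    intro h0
    rcases ENNReal.rpow_eq_zero_iff.1 h0 with h | h
    · exact hV h.1
    · exact hVt h.1
  have hVqt : V ^ q ≠ ∞ := ENNReal.rpow_ne_top_of_nonneg hq0.le hVt
  calc ∫⁻ t in J, ∫⁻ x, (∫⁻ v in near B b r t x, f v) ^ q
      = V ^ q * (V⁻¹ ^ q * ∫⁻ t in J, ∫⁻ x, (∫⁻ v in near B b r t x, f v) ^ q) := by
        rw [← mul_assoc, ENNReal.inv_rpow, ENNReal.mul_inv_cancel hVq0 hVqt, one_mul]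
    _ ≤ V ^ q * (C ^ (1 / (d : ℝ)) * (∫⁻ v in B, f v ^ s) ^ (q - 1 / d)) := mul_le_mul_right h1 _
    _ = _ := by rw [mul_assoc]

end Pool.Agent.V1282.TW
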