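import Pool.Agent.V1282.TW.Lp
import Pool.Agent.V1282.TW.Defs
import Pool.Agent.V1282.PL.Planar

set_option autoImplicit false
set_option maxHeartbeats 1000000

/-!
Strong type inequalities without loss for towers of families of lines.
-/

open MeasureTheory Set ENNReal NNReal Metric

namespace Pool.Agent.V1282.TW.NL

open Pool.Agent.V1282.TW (Vec Space LipPieces OverlapLE SectionMonotone Tower IsSkew)

/-- The strong type inequality on slabs of height one, with constant `C`: for all `a`, all `R > 0` and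
all measurable `f ≥ 0`, the `L^q` norm of the `f`-weighted number of lines at distance at most `R` from
a point, over the heights in `[a, a + 1]`, is at most `(C R^(d+1))^(1/q) ‖f‖_s`, `s = q d / (q d - 1)`. -/
def StrongType {d : ℕ} (q C : ℝ) (B : Set (Vec d)) (b : Vec d → Vec d) : Prop :=
  ∀ (a R : ℝ) (f : Vec d → ℝ≥0∞), 0 < R → Measurable f →
    ∫⁻ t in Icc a (a + 1), ∫⁻ x : Vec d, (∫⁻ v in {v | v ∈ B ∧ ‖x - (b v + t • v)‖ ≤ R}, f v) ^ q ≤
      ENNReal.ofReal (C * R ^ (d + 1)) * (∫⁻ v in B, f v ^ (q * d / (q * d - 1))) ^ (q - 1 / d)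

/-- The stages, for a parameter `l > 1` and constants `c`: arbitrary families of lines in the plane
(multiplicity `1`); families with at most `M` lines through almost every point, given by a map that is Lipschitz on countably many pieces (multiplicity
`(1 + M)^l`); section-monotone families (multiplicity `1`); and all the families that satisfy the strong
type inequality at the exponent `1 + l/d` with the constant `c d M^(1/d)` (multiplicity `M`). -/
inductive Stage (l : ℝ) (c : ℕ → ℝ≥0) :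
    (d : ℕ) → ℝ≥0 → Set (Vec d) → (Vec d → Vec d) → Prop
  | planar {B : Set (Vec 1)} {b : Vec 1 → Vec 1} : Stage l c 1 1 B b
  | overlap {d M : ℕ} {B : Set (Vec d)} {b : Vec d → Vec d}
      (hL : LipPieces B b) (hO : OverlapLE M B b) : Stage l c d ((1 + (M : ℝ≥0)) ^ l) B b
  | monotone {d : ℕ} {B : Set (Vec d)} {b : Vec d → Vec d} (hS : SectionMonotone B b) :
      Stage l c d 1 B b
  | strong {d : ℕ} {M : ℝ≥0} {B : Set (Vec d)} {b : Vec d → Vec d}
      (h : StrongType (1 + l / d) (c d * (M : ℝ) ^ (1 / (d : ℝ))) B b) : Stage l c d M B b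

open Pool.Agent.TH426.Kt (KTower RegBase BaseBd W Wb lin win nb cc KK)
open Pool.Agent.TH221.Rough (HasGood Cst)
open Pool.Agent.H810R3.Tub (om)

theorem StrongType.mono {d : ℕ} {q C C' : ℝ} (h : C ≤ C') {B : Set (Vec d)} {b : Vec d → Vec d}
    (hS : StrongType q C B b) : StrongType q C' B b := by
  intro a R f hR hf
  refine (hS a R f hR hf).trans ?_
  gcongr

/-- The constants of the stages. -/
noncomputable def cst (l : ℝ) (c : ℕ → ℝ≥0) (d : ℕ) : ℝ :=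
  c d + |Cst d (1 + l / d)| * 2 ^ (l / d) + |Pool.Agent.V1282.PL.Cp (1 + l)|

theorem cst_nonneg (l : ℝ) (c : ℕ → ℝ≥0) (d : ℕ) : 0 ≤ cst l c d := by
  unfold cst
  positivity

theorem q_gt {d : ℕ} (hd : 1 ≤ d) {l : ℝ} (hl : 1 < l) : ((d : ℝ) + 1) / d < 1 + l / d := by
  have hd0 : (0 : ℝ) < d := by exact_mod_cast hd
  rw [add_div, div_self hd0.ne']
  have : 1 / (d : ℝ) < l / d := by gcongr
  linarith

theorem stage_strong {l : ℝ} (hl : 1 < l) (c : ℕ → ℝ≥0) {d : ℕ} (hd : 1 ≤ d) {M : ℝ≥0}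
    {B : Set (Vec d)} (hB : MeasurableSet B) (hB1 : B ⊆ closedBall 0 1) {b : Vec d → Vec d}
    (hb : Measurable b) (h : Stage l c d M B b) :
    StrongType (1 + l / d) (cst l c d * (M : ℝ) ^ (1 / (d : ℝ))) B b := by
  have hd0 : (0 : ℝ) < d := by exact_mod_cast hd
  have hl0 : 0 < l := by linarith
  have hgood : ∀ N : ℕ, HasGood N univ B b →
      StrongType (1 + l / d) (Cst d (1 + l / d) * (1 + (N : ℝ)) ^ (l / d)) B b := by
    intro N hN a R f hR hf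
    have h1 := hN.strong hd (q_gt hd hl) MeasurableSet.univ hR hf
    rw [Measure.restrict_univ] at h1
    have e1 : 1 + l / (d : ℝ) - 1 = l / d := by ring
    rw [e1] at h1
    exact (setLIntegral_le_lintegral _ _).trans h1
  have hP0 : 0 ≤ |Pool.Agent.V1282.PL.Cp (1 + l)| := abs_nonneg _
  cases h with
  | planar =>
    intro a R f hR hf
    have h1 := Pool.Agent.V1282.PL.planar (q := 1 + l) (by linarith) hB1 hb hR hf
    have e1 : 1 + l / ((1 : ℕ) : ℝ) = 1 + l := by simp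
    have e2 : (1 + l) * ((1 : ℕ) : ℝ) / ((1 + l) * ((1 : ℕ) : ℝ) - 1) = (1 + l) / (1 + l - 1) := by
      simp
    have e3 : 1 + l - 1 / ((1 : ℕ) : ℝ) = 1 + l - 1 := by simp
    have e4 : ((1 : ℝ≥0) : ℝ) ^ (1 / ((1 : ℕ) : ℝ)) = 1 := by simp
    rw [e1, e2, e3, e4, mul_one]
    refine ((setLIntegral_le_lintegral _ _).trans h1).trans ?_
    have h2 : Pool.Agent.V1282.PL.Cp (1 + l) ≤ cst l c 1 := by
      unfold cst
      have h3 : (0 : ℝ) ≤ c 1 := (c 1).2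
      have h4 : 0 ≤ |Cst 1 (1 + l / ((1 : ℕ) : ℝ))| * 2 ^ (l / ((1 : ℕ) : ℝ)) := by positivity
      linarith [le_abs_self (Pool.Agent.V1282.PL.Cp (1 + l))]
    gcongr
  | @overlap _ N _ _ hL hO =>
    have h1 := hgood N (HasGood.of_lipPieces hB hL (by
      filter_upwards [hO] with t ht _ using ht))
    refine h1.mono ?_
    have e2 : (((1 + (N : ℝ≥0)) ^ l : ℝ≥0) : ℝ) ^ (1 / (d : ℝ)) = (1 + (N : ℝ)) ^ (l / d) := by
      rw [NNReal.coe_rpow, ← Real.rpow_mul (by positivity)]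
      push_cast
      congr 1
      ring
    rw [e2]
    have h2 : Cst d (1 + l / d) ≤ cst l c d := by
      unfold cst
      have h3 : (1 : ℝ) ≤ 2 ^ (l / (d : ℝ)) := Real.one_le_rpow (by norm_num) (by positivity)
      have h4 := le_abs_self (Cst d (1 + l / d))
      have h5 : (0 : ℝ) ≤ c d := (c d).2
      nlinarith [abs_nonneg (Cst d (1 + l / d))]
    gcongr
  | monotone hS =>
    have h1 := hgood 1 (HasGood.of_sectionMonotone (by rw [Real.volume_univ]; exact ENNReal.top_ne_zero) hB (by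
      filter_upwards [hS] with t ht _ using ht))
    refine h1.mono ?_
    have h5 : (0 : ℝ) ≤ c d := (c d).2
    have h4 := le_abs_self (Cst d (1 + l / d))
    have h6 : (1 + ((1 : ℕ) : ℝ)) = 2 := by norm_num
    rw [h6]
    unfold cst
    have h3 : (0 : ℝ) ≤ 2 ^ (l / (d : ℝ)) := by positivity
    simp only [NNReal.coe_one, Real.one_rpow, mul_one]
    nlinarith
  | strong h =>
    refine StrongType.mono ?_ h
    have h2 : (c d : ℝ) ≤ cst l c d := by
      unfold cst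
      have : 0 ≤ |Cst d (1 + l / d)| * 2 ^ (l / (d : ℝ)) := by positivity
      linarith
    gcongr

theorem real1 {d : ℕ} {l r w c n : ℝ} (hd : 1 ≤ d) (hl : 0 < l) (hr : 0 < r) (hw : 0 < w)
    (hc : 0 ≤ c) (hn : 0 ≤ n) :
    ((r ^ d * w)⁻¹) ^ ((d : ℝ) + l) * (c * n ^ (1 / (d : ℝ)) * r ^ (d + 1)) ^ (d : ℝ) =
      (w ^ (-((d : ℝ) + l)) * c ^ (d : ℝ)) * n * (r ^ (-l)) ^ ((d : ℝ) + 1 - (1 + d / l)) := by
  have hd0 : (0 : ℝ) < d := by exact_mod_cast hd
  rw [Real.inv_rpow (by positivity), Real.mul_rpow (by positivity) hw.le,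
    Real.mul_rpow (by positivity) (by positivity), Real.mul_rpow hc (by positivity),
    ← Real.rpow_natCast r d, ← Real.rpow_natCast r (d + 1), ← Real.rpow_mul hr.le,
    ← Real.rpow_mul hr.le, ← Real.rpow_mul hr.le, ← Real.rpow_mul hn, mul_inv,
    ← Real.rpow_neg hr.le, ← Real.rpow_neg hw.le]
  have e1 : 1 / (d : ℝ) * d = 1 := by field_simp
  rw [e1, Real.rpow_one]
  have e2 : r ^ (-((d : ℝ) * (d + l))) * r ^ (((d + 1 : ℕ) : ℝ) * d) =
      r ^ (-l * ((d : ℝ) + 1 - (1 + d / l))) := by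
    rw [← Real.rpow_add hr]
    congr 1
    push_cast
    field_simp
    ring
  calc r ^ (-((d : ℝ) * (d + l))) * w ^ (-((d : ℝ) + l)) *
        (c ^ (d : ℝ) * n * r ^ (((d + 1 : ℕ) : ℝ) * d))
      = w ^ (-((d : ℝ) + l)) * c ^ (d : ℝ) * n *
        (r ^ (-((d : ℝ) * (d + l))) * r ^ (((d + 1 : ℕ) : ℝ) * d)) := by ring
    _ = _ := by rw [e2]

theorem real2 {d : ℕ} {l r w X n : ℝ} (hd : 1 ≤ d) (hl : 0 < l) (hr : 0 < r) (hw : 0 < w)
    (hX : 0 ≤ X) (hn : 0 ≤ n) :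
    (r ^ d * w) ^ (1 + l / d) * (X * n * (r ^ (-l)) ^ ((d : ℝ) + 1 - (1 + d / l))) ^ (1 / (d : ℝ)) =
      w ^ (1 + l / (d : ℝ)) * X ^ (1 / (d : ℝ)) * n ^ (1 / (d : ℝ)) * r ^ (d + 1) := by
  have hd0 : (0 : ℝ) < d := by exact_mod_cast hd
  rw [Real.mul_rpow (by positivity) hw.le, Real.mul_rpow (by positivity) (by positivity),
    Real.mul_rpow hX hn, ← Real.rpow_natCast r d, ← Real.rpow_natCast r (d + 1),
    ← Real.rpow_mul hr.le, ← Real.rpow_mul hr.le, ← Real.rpow_mul hr.le]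
  have e2 : r ^ ((d : ℝ) * (1 + l / d)) * r ^ (-l * ((d : ℝ) + 1 - (1 + d / l)) * (1 / (d : ℝ))) =
      r ^ (((d + 1 : ℕ) : ℝ)) := by
    rw [← Real.rpow_add hr]
    congr 1
    push_cast
    field_simp
    ring
  calc r ^ ((d : ℝ) * (1 + l / d)) * w ^ (1 + l / (d : ℝ)) *
        (X ^ (1 / (d : ℝ)) * n ^ (1 / (d : ℝ)) *
          r ^ (-l * ((d : ℝ) + 1 - (1 + d / l)) * (1 / (d : ℝ))))
      = w ^ (1 + l / (d : ℝ)) * X ^ (1 / (d : ℝ)) * n ^ (1 / (d : ℝ)) *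
        (r ^ ((d : ℝ) * (1 + l / d)) * r ^ (-l * ((d : ℝ) + 1 - (1 + d / l)) * (1 / (d : ℝ)))) := by
        ring
    _ = _ := by rw [e2]

/-- The class of stages in the form used by the closure theorem. -/
def GB (l : ℝ) (c : ℕ → ℝ≥0) (d : ℕ) (p : ℝ) (M : ℝ≥0) (B : Set (Vec d)) (b : Vec d → Vec d) :
    Prop :=
  p = 1 + d / l ∧ 1 ≤ d ∧ MeasurableSet B ∧ B ⊆ closedBall 0 1 ∧ Measurable b ∧
    StrongType (1 + l / d) (cst l c d * (M : ℝ) ^ (1 / (d : ℝ))) B b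

theorem gb_reg {l : ℝ} (hl : 1 < l) (c : ℕ → ℝ≥0) : RegBase (GB l c) := by
  have hl0 : 0 < l := by linarith
  constructor
  · rintro d p N B b ⟨-, -, h1, h2, h3, -⟩
    exact ⟨h1, h2, h3⟩
  · rintro d p N B b ⟨rfl, -, -, -, -, -⟩
    have h0 : (0 : ℝ) ≤ d := Nat.cast_nonneg d
    have h1 : 0 ≤ (d : ℝ) / l := by positivity
    have h2 : (d : ℝ) / l ≤ d := div_le_self h0 hl.le
    constructor <;> linarith

/-- The constants of the window bounds of the stages. -/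
noncomputable def c1 (l : ℝ) (c : ℕ → ℝ≥0) (d : ℕ) : ℝ≥0∞ :=
  ENNReal.ofReal (om d ^ (-((d : ℝ) + l)) * cst l c d ^ (d : ℝ))

theorem win_sub (k : ℤ) : win univ k ⊆ Icc ((k : ℝ) / 4) ((k : ℝ) / 4 + 1) := by
  rintro t ⟨⟨h1, h2⟩, -⟩
  constructor <;> linarith

theorem gb_bd {l : ℝ} (hl : 1 < l) (c : ℕ → ℝ≥0) {r : ℝ} (hr : 0 < r) (k : ℤ) :
    BaseBd (GB l c) r (win univ k) l (c1 l c) 1 (ENNReal.ofReal (r ^ (-l))) := by
  have hl0 : 0 < l := by linarith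
  rintro d p N B b ⟨rfl, hd, hB, hB1, hb, hS⟩
  have hd0 : (0 : ℝ) < d := by exact_mod_cast hd
  have hom := Pool.Agent.H810R3.Tub.om_pos (d := d)
  have hN0 : (0 : ℝ) ≤ N := N.2
  have hc := cst_nonneg l c d
  have key := Pool.Agent.V1282.TW.wb_of_strong hd hl0 hr
    (Pool.Agent.TH426.Kt.measurableSet_win MeasurableSet.univ k) hB hB1 hb
    (D := ENNReal.ofReal (cst l c d * (N : ℝ) ^ (1 / (d : ℝ)) * r ^ (d + 1))) (by
      intro f hf
      exact (lintegral_mono_set (win_sub k)).trans (hS _ r f hr hf))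
  refine key.mono (le_of_eq ?_) subset_rfl
  rw [Pool.Agent.H810R3.Tub.vol_closedBall hr, ← ENNReal.ofReal_inv_of_pos (by positivity),
    ENNReal.ofReal_rpow_of_nonneg (by positivity) (by positivity),
    ENNReal.ofReal_rpow_of_nonneg (by positivity) hd0.le,
    ← ENNReal.ofReal_mul (by positivity), real1 hd hl0 hr hom hc hN0]
  have h2 : 0 ≤ (d : ℝ) + 1 - (1 + d / l) := by
    have h2 : (d : ℝ) / l ≤ d := div_le_self hd0.le hl.le
    linarith
  rw [ENNReal.ofReal_rpow_of_nonneg (by positivity) h2, one_pow, mul_one, c1,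
    ENNReal.ofReal_mul (by positivity), ENNReal.ofReal_mul (by positivity),
    ENNReal.ofReal_coe_nnreal]

theorem toK {l : ℝ} (hl : 0 < l) {𝒮 : (d : ℕ) → ℝ≥0 → Set (Vec d) → (Vec d → Vec d) → Prop}
    {𝓑 : (d : ℕ) → ℝ → ℝ≥0 → Set (Vec d) → (Vec d → Vec d) → Prop}
    (h0 : ∀ {d : ℕ} {M : ℝ≥0} {B : Set (Vec d)} {b : Vec d → Vec d}, 1 ≤ d → MeasurableSet B →
      B ⊆ closedBall 0 1 → Measurable b → 𝒮 d M B b → 𝓑 d (1 + d / l) M B b)
    {d : ℕ} {M : ℝ≥0} {B : Set (Vec d)} {b : Vec d → Vec d} (h : Tower 𝒮 d M B b) :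
    KTower 𝓑 d (1 + d / l) M B b := by
  induction h with
  | stage hd hB hB1 hb h => exact KTower.base (h0 hd hB hB1 hb h)
  | pieces m B h hM ih => exact KTower.union m B ih hM
  | @skew d d1 d2 M1 M2 B B1 B2 b b1 b2 Φ hd1 hd2 hM2 h1 h2 hs ih1 ih2 =>
    obtain ⟨hB2, hb2, hB, hB1, hb, hbB⟩ := hs
    have hd : (d : ℝ) = d1 + d2 := by
      have := Pool.Agent.TH426.Kt.dim_eq Φ
      exact_mod_cast this
    have e : 1 + (d : ℝ) / l = (1 + d1 / l) + (1 + d2 / l) - 1 := by rw [hd]; ring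
    rw [e]
    exact KTower.skew Φ hd1 hd2 hM2 ih1 ih2 hB2 hb2 hB hB1 hb hbB

/-- The constant for towers. -/
noncomputable def E0 (l : ℝ) (c : ℕ → ℝ≥0) (d : ℕ) : ℝ :=
  om d ^ (1 + l / (d : ℝ)) * (cc (c1 l c) (KK l) d).toReal ^ (1 / (d : ℝ))

/-- Towers satisfy the strong type inequality. -/
theorem tower_strong {l : ℝ} (hl : 1 < l) (c : ℕ → ℝ≥0) {d : ℕ} (hd : 1 ≤ d) {M : ℝ≥0}
    {B : Set (Vec d)} {b : Vec d → Vec d} (h : Tower (Stage l c) d M B b) :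
    StrongType (1 + l / d) (5 * E0 l c d * (M : ℝ) ^ (1 / (d : ℝ))) B b := by
  have hl0 : 0 < l := by linarith
  have hd0 : (0 : ℝ) < d := by exact_mod_cast hd
  have hom := Pool.Agent.H810R3.Tub.om_pos (d := d)
  have hM0 : (0 : ℝ) ≤ M := M.2
  have hK : KTower (GB l c) d (1 + d / l) M B b := by
    refine toK hl0 ?_ h
    intro d M B b hd hB hB1 hb hS
    exact ⟨rfl, hd, hB, hB1, hb, stage_strong hl c hd hB hB1 hb hS⟩
  obtain ⟨hB, hB1, hb⟩ := hK.meas (gb_reg hl c)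
  have hc1 : ∀ n, c1 l c n ≠ ∞ := fun n => ENNReal.ofReal_ne_top
  have hct : cc (c1 l c) (KK l) d ≠ ∞ :=
    Pool.Agent.TH426.Kt.cc_ne_top hc1 (Pool.Agent.TH426.Kt.KK_ne_top hl0.le) d
  set X : ℝ := (cc (c1 l c) (KK l) d).toReal with hX
  have hX0 : 0 ≤ X := ENNReal.toReal_nonneg
  intro a R f hR hf
  have h2 : 0 ≤ (d : ℝ) + 1 - (1 + d / l) := by
    have h2 : (d : ℝ) / l ≤ d := div_le_self hd0.le hl.le
    linarith
  have hwin : ∀ k : ℤ, ∫⁻ t in win univ k, ∫⁻ x : Vec d,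
      (∫⁻ v in {v | v ∈ B ∧ ‖x - (b v + t • v)‖ ≤ R}, f v) ^ (1 + l / (d : ℝ)) ≤
      ENNReal.ofReal (E0 l c d * (M : ℝ) ^ (1 / (d : ℝ)) * R ^ (d + 1)) *
        (∫⁻ v in B, f v ^ ((1 + l / d) * d / ((1 + l / d) * d - 1))) ^ (1 + l / (d : ℝ) - 1 / d) := by
    intro k
    have hmu : ENNReal.ofReal (R ^ (-l)) ≠ 0 := by
      rw [ne_eq, ENNReal.ofReal_eq_zero, not_le]
      positivity
    have h3 := hK.bound (gb_reg hl c) (r := R) hR (J := win univ k) hl0 one_ne_zero one_ne_top hmu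
      ENNReal.ofReal_ne_top hc1 (gb_bd hl c hR k)
    have h4 := Pool.Agent.V1282.TW.strong_of_wb hd hl0 hR
      (Pool.Agent.TH426.Kt.measurableSet_win MeasurableSet.univ k) hB hB1 hb h3 hf
    refine h4.trans (le_of_eq ?_)
    congr 1
    rw [Pool.Agent.H810R3.Tub.vol_closedBall hR, one_pow, mul_one,
      ENNReal.ofReal_rpow_of_nonneg (by positivity) h2]
    have e1 : cc (c1 l c) (KK l) d = ENNReal.ofReal X := (ENNReal.ofReal_toReal hct).symm
    rw [e1, ← ENNReal.ofReal_coe_nnreal, ← ENNReal.ofReal_mul hX0,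
      ← ENNReal.ofReal_mul (by positivity),
      ENNReal.ofReal_rpow_of_nonneg (by positivity) (by positivity),
      ENNReal.ofReal_rpow_of_nonneg (by positivity) (by positivity),
      ← ENNReal.ofReal_mul (by positivity), real2 hd hl0 hR hom hX0 hM0, E0]
  have hcov : Icc a (a + 1) ⊆ ⋃ i : Fin 5, win univ (⌊4 * a⌋ + (i : ℤ)) := by
    intro t ht
    have h5 := Int.floor_le (4 * t)
    have h6 := Int.lt_floor_add_one (4 * t)
    have h7 : ⌊4 * a⌋ ≤ ⌊4 * t⌋ := Int.floor_le_floor (by linarith [ht.1])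
    have h8 : ⌊4 * t⌋ ≤ ⌊4 * a⌋ + 4 := by
      have : ⌊4 * t⌋ ≤ ⌊4 * a + 4⌋ := Int.floor_le_floor (by linarith [ht.2])
      have e : ⌊4 * a + 4⌋ = ⌊4 * a⌋ + 4 := by
        have := Int.floor_add_intCast (4 * a) 4
        exact_mod_cast this
      omega
    refine mem_iUnion.2 ⟨⟨(⌊4 * t⌋ - ⌊4 * a⌋).toNat, by omega⟩, ?_, mem_univ _⟩
    have e : (⌊4 * a⌋ + (((⟨(⌊4 * t⌋ - ⌊4 * a⌋).toNat, by omega⟩ : Fin 5) : ℕ) : ℤ)) = ⌊4 * t⌋ := by
      simp only
      omega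
    rw [e]
    constructor <;> linarith
  calc ∫⁻ t in Icc a (a + 1), ∫⁻ x : Vec d,
        (∫⁻ v in {v | v ∈ B ∧ ‖x - (b v + t • v)‖ ≤ R}, f v) ^ (1 + l / (d : ℝ))
      ≤ ∫⁻ t in ⋃ i : Fin 5, win univ (⌊4 * a⌋ + (i : ℤ)), ∫⁻ x : Vec d,
        (∫⁻ v in {v | v ∈ B ∧ ‖x - (b v + t • v)‖ ≤ R}, f v) ^ (1 + l / (d : ℝ)) :=
        lintegral_mono_set hcov
    _ ≤ ∑' i : Fin 5, ∫⁻ t in win univ (⌊4 * a⌋ + (i : ℤ)), ∫⁻ x : Vec d,
        (∫⁻ v in {v | v ∈ B ∧ ‖x - (b v + t • v)‖ ≤ R}, f v) ^ (1 + l / (d : ℝ)) :=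
        lintegral_iUnion_le _ _
    _ ≤ ∑' _ : Fin 5, ENNReal.ofReal (E0 l c d * (M : ℝ) ^ (1 / (d : ℝ)) * R ^ (d + 1)) *
        (∫⁻ v in B, f v ^ ((1 + l / d) * d / ((1 + l / d) * d - 1))) ^ (1 + l / (d : ℝ) - 1 / d) :=
        ENNReal.tsum_le_tsum fun i => hwin _
    _ = _ := by
        rw [tsum_fintype, Finset.sum_const, Finset.card_univ, Fintype.card_fin, nsmul_eq_mul,
          ← mul_assoc]
        congr 1
        have hE : 0 ≤ E0 l c d := by unfold E0; positivity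
        have e5 : ((5 : ℕ) : ℝ≥0∞) = ENNReal.ofReal 5 := by norm_num
        rw [e5, ← ENNReal.ofReal_mul (by norm_num)]
        congr 1
        ring

end Pool.Agent.V1282.TW.NL
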