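import Pool.Agent.V1282.TW.LpTower

set_option autoImplicit false
set_option maxHeartbeats 1000000

/-!
Triangular families are towers.
-/

open MeasureTheory Set ENNReal NNReal Metric

namespace Pool.Agent.V1282.TW

/-- `b` is triangular: the `k`-th coordinate of `b v` depends on the coordinates `v j`, `j ≤ k`, only. -/
def Triangular {d : ℕ} (b : Vec d → Vec d) : Prop :=
  ∀ (k : Fin d) (v w : Vec d), (∀ j, j ≤ k → v j = w j) → b v k = b w k

namespace NL

/-- Splitting off the last coordinate. -/
noncomputable def sp (d : ℕ) : Vec (d + 1) ≃ₗᵢ[ℝ] WithLp 2 (Vec d × Vec 1) :=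
  (LinearIsometryEquiv.piLpCongrLeft 2 ℝ ℝ finSumFinEquiv.symm).trans
    (PiLp.sumPiLpEquivProdLpPiLp 2 _)

theorem sp_fst (d : ℕ) (v : Vec (d + 1)) (i : Fin d) : (split (sp d) v).1 i = v (Fin.castAdd 1 i) := by
  rfl

theorem sp_snd (d : ℕ) (v : Vec (d + 1)) (i : Fin 1) : (split (sp d) v).2 i = v (Fin.natAdd d i) := by
  rfl

/-- Gluing. -/
noncomputable def glue (d : ℕ) (z : Vec d × Vec 1) : Vec (d + 1) := (sp d).symm (WithLp.toLp 2 z)

theorem split_glue (d : ℕ) (z : Vec d × Vec 1) : split (sp d) (glue d z) = z := by
  unfold split glue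
  rw [LinearIsometryEquiv.apply_symm_apply]

theorem glue_split (d : ℕ) (v : Vec (d + 1)) : glue d (split (sp d) v) = v := by
  unfold split glue
  show (sp d).symm (sp d v) = v
  rw [LinearIsometryEquiv.symm_apply_apply]

theorem glue_cast (d : ℕ) (z : Vec d × Vec 1) (i : Fin d) : glue d z (Fin.castAdd 1 i) = z.1 i := by
  rw [← sp_fst, split_glue]

theorem meas_glue (d : ℕ) : Measurable (glue d) := by
  unfold glue
  exact (sp d).symm.continuous.measurable.comp (WithLp.measurable_toLp _ _)

theorem meas_split (d : ℕ) : Measurable (split (sp d)) := by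
  unfold split
  exact (WithLp.measurable_ofLp _ _).comp (sp d).continuous.measurable

theorem norm_split (d : ℕ) (v : Vec (d + 1)) :
    ‖(split (sp d) v).1‖ ≤ ‖v‖ ∧ ‖(split (sp d) v).2‖ ≤ ‖v‖ := by
  have h : ‖(split (sp d) v).1‖ ^ 2 + ‖(split (sp d) v).2‖ ^ 2 = ‖v‖ ^ 2 := by
    rw [← (sp d).norm_map v, WithLp.prod_norm_sq_eq_of_L2]
    rfl
  constructor
  · exact le_of_sq_le_sq (by nlinarith [sq_nonneg ‖(split (sp d) v).2‖]) (norm_nonneg _)
  · exact le_of_sq_le_sq (by nlinarith [sq_nonneg ‖(split (sp d) v).1‖]) (norm_nonneg _)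

/-- Triangular families are towers. -/
theorem tri_tower (l : ℝ) (c : ℕ → ℝ≥0) {d : ℕ} (hd : 1 ≤ d) :
    ∀ (B : Set (Vec d)) (b : Vec d → Vec d), MeasurableSet B → B ⊆ closedBall 0 1 → Measurable b →
      Triangular b → Tower (Stage l c) d 1 B b := by
  induction d, hd using Nat.le_induction with
  | base =>
    intro B b hB hB1 hb _
    exact Tower.stage le_rfl hB hB1 hb Stage.planar
  | succ d hd ih =>
    intro B b hB hB1 hb htri
    have hms := meas_split d
    have hmg := meas_glue d
    have h := Tower.skew (𝒮 := Stage l c) (sp d) (M1 := 1) (M2 := 1) (B := B) (B1 := closedBall 0 1)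
      (B2 := fun _ => closedBall 0 1) (b := b) (b1 := fun u => (split (sp d) (b (glue d (u, 0)))).1)
      (b2 := fun u z => (split (sp d) (b (glue d (u, z)))).2) hd le_rfl one_pos ?_ ?_ ?_
    · rwa [one_mul] at h
    · apply ih _ _ measurableSet_closedBall subset_rfl
      · exact measurable_fst.comp (hms.comp (hb.comp (hmg.comp
          (measurable_id.prodMk measurable_const))))
      · intro k v w hvw
        show (split (sp d) (b (glue d (v, 0)))).1 k = (split (sp d) (b (glue d (w, 0)))).1 k
        rw [sp_fst, sp_fst]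
        apply htri
        intro j hj
        have hjd : (j : ℕ) < d := lt_of_le_of_lt (Fin.le_def.1 hj) k.2
        have ej : j = Fin.castAdd 1 ⟨j, hjd⟩ := by ext; rfl
        rw [ej, glue_cast, glue_cast]
        apply hvw
        rw [Fin.le_def]
        exact Fin.le_def.1 hj
    · intro v _
      refine Tower.stage le_rfl measurableSet_closedBall subset_rfl ?_ Stage.planar
      exact measurable_snd.comp (hms.comp (hb.comp (hmg.comp
          (measurable_const.prodMk measurable_id))))
    · refine ⟨?_, ?_, hB, hB1, hb, ?_⟩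
      · exact (measurable_fst measurableSet_closedBall).inter
          (measurable_snd measurableSet_closedBall)
      · exact measurable_snd.comp (hms.comp (hb.comp hmg))
      · intro v hv
        have hv1 : ‖v‖ ≤ 1 := by
          have := hB1 hv
          rwa [mem_closedBall, dist_zero_right] at this
        obtain ⟨h1, h2⟩ := norm_split d v
        refine ⟨by rw [mem_closedBall, dist_zero_right]; linarith,
          by rw [mem_closedBall, dist_zero_right]; linarith, ?_⟩
        apply Prod.ext
        · ext k
          show (split (sp d) (b v)).1 k =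
            (split (sp d) (b (glue d ((split (sp d) v).1, 0)))).1 k
          rw [sp_fst, sp_fst]
          apply htri
          intro j hj
          have hjd : (j : ℕ) < d := lt_of_le_of_lt (Fin.le_def.1 hj) k.2
          have ej : j = Fin.castAdd 1 ⟨j, hjd⟩ := by ext; rfl
          rw [ej, glue_cast, sp_fst]
        · show (split (sp d) (b v)).2 =
            (split (sp d) (b (glue d ((split (sp d) v).1, (split (sp d) v).2)))).2
          rw [Prod.mk.eta, glue_split]

end NL

end Pool.Agent.V1282.TW
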